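import Pool.Agent.Helper88.CE.Star
import Pool.Agent.Helper76.CT.Upper

/-!
# The inequality on a ball of radius two
-/

open Finset Pool.Agent.Helper71.CE

namespace Pool.Agent.Helper88.CE

variable {V : Type*} [Fintype V] [DecidableEq V]

omit [DecidableEq V] in
theorem sum_sq_le_sq (f : V → ℝ) (hf : ∀ j, 0 ≤ f j) : ∑ j, f j ^ 2 ≤ (∑ j, f j) ^ 2 := by
  rw [sq (∑ j, f j), Finset.sum_mul_sum]
  refine Finset.sum_le_sum fun j _ => ?_
  rw [sq]
  exact Finset.single_le_sum (f := fun k => f j * f k) (fun k _ => mul_nonneg (hf j) (hf k))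
    (mem_univ j)

/-- `1 - ∑_{k ≠ i, j} R_{jk}²` -/
noncomputable def rest (R : V → V → ℝ) (j i : V) : ℝ :=
  1 - ∑ k, if k = i ∨ k = j then 0 else R j k ^ 2

theorem rest_ge {G : SimpleGraph V} (hG : G.CliqueFree 3) {R : V → V → ℝ} (hR : InPG G R)
    (h1 : ∀ i, R i i = 1) {i j : V} (hij : i ≠ j) : R j i ^ 2 ≤ rest R j i := by
  have h := Pool.Agent.Helper76.CT.bessel hG hR j
  rw [h1 j] at h
  have e1 : ∑ k ∈ univ.erase j, R j k ^ 2 / R k k =
      R j i ^ 2 + ∑ k, if k = i ∨ k = j then 0 else R j k ^ 2 := by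
    have e2 : ∑ k ∈ univ.erase j, R j k ^ 2 / R k k = ∑ k, if k = j then 0 else R j k ^ 2 := by
      rw [← Finset.add_sum_erase univ (fun k => if k = j then 0 else R j k ^ 2) (mem_univ j)]
      rw [if_pos rfl, zero_add]
      refine Finset.sum_congr rfl fun k hk => ?_
      rw [h1, div_one, if_neg (Finset.ne_of_mem_erase hk)]
    rw [e2, ← Finset.add_sum_erase univ (fun k => if k = j then 0 else R j k ^ 2) (mem_univ i),
      if_neg hij]
    congr 1
    rw [← Finset.add_sum_erase univ (fun k => if k = i ∨ k = j then 0 else R j k ^ 2) (mem_univ i),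
      if_pos (Or.inl rfl), zero_add]
    refine Finset.sum_congr rfl fun k hk => ?_
    have := Finset.ne_of_mem_erase hk
    simp [this]
  rw [e1] at h
  rw [rest]
  linarith

/-- the inequality on a ball of radius two, for graphs without closed walks of length `5` -/
theorem ball_ineq {G : SimpleGraph V} (hG : G.CliqueFree 3)
    (h5 : ∀ a b c d e, G.Adj a b → G.Adj b c → G.Adj c d → G.Adj d e → ¬ G.Adj e a)
    {R : V → V → ℝ} (hR : InPG G R) (h1 : ∀ i, R i i = 1) (i : V) :
    ∑ j, (if j = i then 0 else R i j ^ 2 / rest R j i) ≤ 1 := by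
  obtain ⟨hP, h0, hz⟩ := hR
  have htri : ∀ a b c, G.Adj a b → G.Adj b c → ¬ G.Adj a c := by
    intro a b c hab hbc hac
    exact hG {a, b, c} (SimpleGraph.is3Clique_triple_iff.2 ⟨hab, hac, hbc⟩)
  set t : V → ℝ := fun j => if j = i then 0 else R i j / rest R j i with ht
  set X : V → ℝ := fun l => if l = i then 0 else ∑ j, if j = l then 0 else R l j * t j with hX
  have hti : t i = 0 := by simp [ht]
  have hXi : X i = 0 := by simp [hX]
  have hrest : ∀ j, j ≠ i → 0 ≤ rest R j i := fun j hj =>
    (sq_nonneg _).trans (rest_ge hG ⟨hP, h0, hz⟩ h1 (Ne.symm hj))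
  have ht0 : ∀ j, 0 ≤ t j := by
    intro j
    by_cases hj : j = i
    · rw [hj, hti]
    · rw [ht]; simp only [if_neg hj]
      exact div_nonneg (h0 _ _) (hrest j hj)
  -- the support of `t` consists of neighbours of `i`
  have htadj : ∀ j, t j ≠ 0 → G.Adj i j := by
    intro j hj
    by_contra h
    apply hj
    rw [ht]
    by_cases hji : j = i
    · simp [hji]
    · simp only [if_neg hji]
      rw [hz i j (Ne.symm hji) h, zero_div]
  -- the support of `X` consists of vertices at distance two
  have hXadj : ∀ l, X l ≠ 0 → l ≠ i ∧ ∃ j, G.Adj i j ∧ G.Adj j l := by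
    intro l hl
    have hli : l ≠ i := by
      intro e; rw [e, hXi] at hl; exact hl rfl
    refine ⟨hli, ?_⟩
    rw [hX] at hl
    simp only [if_neg hli] at hl
    obtain ⟨j, -, hj⟩ := Finset.exists_ne_zero_of_sum_ne_zero hl
    have hjl : j ≠ l := by
      intro e; rw [if_pos e] at hj; exact hj rfl
    rw [if_neg hjl] at hj
    refine ⟨j, htadj j (right_ne_zero_of_mul hj), ?_⟩
    by_contra h
    exact (left_ne_zero_of_mul hj) (hz l j hjl.symm fun h' => h h'.symm)
  have htX : ∀ l, t l * X l = 0 := by
    intro l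
    by_contra h
    have h2 := htadj l (left_ne_zero_of_mul h)
    obtain ⟨-, j, h3, h4⟩ := hXadj l (right_ne_zero_of_mul h)
    exact htri i j l h3 h4 h2
  -- quadratic form on the three parts
  have qtt : ∑ j, ∑ k, t j * R j k * t k = ∑ j, t j ^ 2 := by
    refine Finset.sum_congr rfl fun j _ => ?_
    rw [Finset.sum_eq_single j]
    · rw [h1]; ring
    · intro k _ hkj
      by_contra h
      have hj := htadj j (left_ne_zero_of_mul (left_ne_zero_of_mul h))
      have hk := htadj k (right_ne_zero_of_mul h)
      have hjk : G.Adj j k := by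
        by_contra h'
        exact (right_ne_zero_of_mul (left_ne_zero_of_mul h)) (hz j k (Ne.symm hkj) h')
      exact htri i j k hj hjk hk
    · intro h; exact absurd (mem_univ j) h
  have qXX : ∑ j, ∑ k, X j * R j k * X k = ∑ j, X j ^ 2 := by
    refine Finset.sum_congr rfl fun j _ => ?_
    rw [Finset.sum_eq_single j]
    · rw [h1]; ring
    · intro k _ hkj
      by_contra h
      obtain ⟨-, a, ha1, ha2⟩ := hXadj j (left_ne_zero_of_mul (left_ne_zero_of_mul h))
      obtain ⟨-, b, hb1, hb2⟩ := hXadj k (right_ne_zero_of_mul h)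
      have hjk : G.Adj j k := by
        by_contra h'
        exact (right_ne_zero_of_mul (left_ne_zero_of_mul h)) (hz j k (Ne.symm hkj) h')
      exact h5 i a j k b ha1 ha2 hjk hb2.symm hb1.symm
    · intro h; exact absurd (mem_univ j) h
  have qiX : ∑ k, R i k * X k = 0 := by
    refine Finset.sum_eq_zero fun k _ => ?_
    by_contra h
    obtain ⟨hki, j, hj1, hj2⟩ := hXadj k (right_ne_zero_of_mul h)
    have hik : G.Adj i k := by
      by_contra h'
      exact (left_ne_zero_of_mul h) (hz i k (Ne.symm hki) h')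
    exact htri i j k hj1 hj2 hik
  set Y : ℝ := ∑ k, R i k * t k with hY
  have qXt : ∑ l, ∑ k, X l * R l k * t k = ∑ l, X l ^ 2 := by
    refine Finset.sum_congr rfl fun l _ => ?_
    by_cases hli : l = i
    · rw [hli, hXi]; simp
    · have e1 : ∑ k, X l * R l k * t k = X l * ∑ k, R l k * t k := by
        rw [Finset.mul_sum]; exact Finset.sum_congr rfl fun k _ => by ring
      have e2 : ∑ k, R l k * t k = t l + X l := by
        have e3 : X l = ∑ j, if j = l then 0 else R l j * t j := by
          rw [hX]; simp only [if_neg hli]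
        rw [e3, ← Finset.add_sum_erase univ (fun k => R l k * t k) (mem_univ l), h1, one_mul,
          ← Finset.add_sum_erase univ (fun j => if j = l then 0 else R l j * t j) (mem_univ l),
          if_pos rfl, zero_add]
        congr 1
        refine Finset.sum_congr rfl fun k hk => ?_
        rw [if_neg (Finset.ne_of_mem_erase hk)]
      rw [e1, e2]
      have := htX l
      linear_combination this
  -- the test vector
  have hq := hP.2 (fun l => (if l = i then 1 else 0) - t l + X l)
  have hexp : qf R (fun l => (if l = i then 1 else 0) - t l + X l) =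
      1 + ∑ j, t j ^ 2 - ∑ j, X j ^ 2 - 2 * Y := by
    have e0 : qf R (fun l => (if l = i then 1 else 0) - t l + X l) =
        (∑ l, ∑ k, (if l = i then (1:ℝ) else 0) * R l k * (if k = i then 1 else 0)) +
        (∑ l, ∑ k, t l * R l k * t k) + (∑ l, ∑ k, X l * R l k * X k) -
        2 * (∑ l, ∑ k, (if l = i then (1:ℝ) else 0) * R l k * t k) +
        2 * (∑ l, ∑ k, (if l = i then (1:ℝ) else 0) * R l k * X k) -
        2 * (∑ l, ∑ k, X l * R l k * t k) := by
      have s1 : ∀ f g : V → ℝ, ∑ l, ∑ k, f l * R l k * g k = ∑ l, ∑ k, g l * R l k * f k := by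
        intro f g
        rw [Finset.sum_comm]
        refine Finset.sum_congr rfl fun l _ => Finset.sum_congr rfl fun k _ => ?_
        rw [hP.1 k l]; ring
      have s2 := s1 (fun l => if l = i then (1:ℝ) else 0) t
      have s3 := s1 (fun l => if l = i then (1:ℝ) else 0) X
      have s4 := s1 X t
      have s5 : qf R (fun l => (if l = i then 1 else 0) - t l + X l) =
          (∑ l, ∑ k, (if l = i then (1:ℝ) else 0) * R l k * (if k = i then 1 else 0)) +
          (∑ l, ∑ k, t l * R l k * t k) + (∑ l, ∑ k, X l * R l k * X k) -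
          (∑ l, ∑ k, (if l = i then (1:ℝ) else 0) * R l k * t k) -
          (∑ l, ∑ k, t l * R l k * (if k = i then (1:ℝ) else 0)) +
          (∑ l, ∑ k, (if l = i then (1:ℝ) else 0) * R l k * X k) +
          (∑ l, ∑ k, X l * R l k * (if k = i then (1:ℝ) else 0)) -
          (∑ l, ∑ k, X l * R l k * t k) - (∑ l, ∑ k, t l * R l k * X k) := by
        simp only [qf, ← Finset.sum_add_distrib, ← Finset.sum_sub_distrib]
        refine Finset.sum_congr rfl fun l _ => Finset.sum_congr rfl fun k _ => ?_
        ring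
      rw [s5]
      linarith
    rw [e0, qtt, qXX, qXt]
    have e1 : ∀ f : V → ℝ, ∑ l, ∑ k, (if l = i then (1:ℝ) else 0) * R l k * f k =
        ∑ k, R i k * f k := by
      intro f
      rw [Finset.sum_eq_single i]
      · simp
      · intro l _ hl; simp [hl]
      · intro h; exact absurd (mem_univ i) h
    rw [e1, e1, e1, qiX, ← hY]
    have e2 : ∑ k, R i k * (if k = i then (1:ℝ) else 0) = 1 := by
      simp [h1]
    rw [e2]
    ring
  rw [hexp] at hq
  -- lower bound of the squares of `X`
  have hXsq : ∑ j, t j ^ 2 * (1 - rest R j i) ≤ ∑ l, X l ^ 2 := by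
    have e1 : ∀ j, t j ^ 2 * (1 - rest R j i) =
        ∑ l, if l = i ∨ l = j then 0 else (R l j * t j) ^ 2 := by
      intro j
      rw [rest, sub_sub_cancel, Finset.mul_sum]
      refine Finset.sum_congr rfl fun l _ => ?_
      by_cases h : l = i ∨ l = j
      · rw [if_pos h, if_pos h, mul_zero]
      · rw [if_neg h, if_neg h, hP.1 j l]; ring
    rw [Finset.sum_congr rfl fun j _ => e1 j, Finset.sum_comm]
    refine Finset.sum_le_sum fun l _ => ?_
    by_cases hli : l = i
    · rw [hli, hXi]
      simp
    · rw [hX]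
      simp only [hli, false_or]
      have e2 : ∀ j, (if l = j then (0:ℝ) else (R l j * t j) ^ 2) =
          (if j = l then 0 else R l j * t j) ^ 2 := by
        intro j
        by_cases h : j = l
        · rw [if_pos h, if_pos h.symm]; ring
        · rw [if_neg h, if_neg (Ne.symm h)]
      rw [Finset.sum_congr rfl fun j _ => e2 j]
      refine sum_sq_le_sq _ fun j => ?_
      by_cases h : j = l
      · rw [if_pos h]
      · rw [if_neg h]; exact mul_nonneg (h0 _ _) (ht0 _)
  -- the values
  have hval : ∀ j, t j ^ 2 * rest R j i = (if j = i then 0 else R i j ^ 2 / rest R j i) := by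
    intro j
    by_cases hj : j = i
    · rw [if_pos hj, hj, hti]; ring
    · rw [if_neg hj, ht]
      simp only [if_neg hj]
      by_cases hr : rest R j i = 0
      · rw [hr]; simp
      · field_simp
  have hval2 : ∀ j, R i j * t j = (if j = i then 0 else R i j ^ 2 / rest R j i) := by
    intro j
    by_cases hj : j = i
    · rw [if_pos hj, hj, hti]; ring
    · rw [if_neg hj, ht]
      simp only [if_neg hj]
      ring
  have hY2 : Y = ∑ j, (if j = i then 0 else R i j ^ 2 / rest R j i) := by
    rw [hY]; exact Finset.sum_congr rfl fun j _ => hval2 j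
  have e3 : ∑ j, t j ^ 2 * (1 - rest R j i) = ∑ j, t j ^ 2 - Y := by
    rw [hY2, ← Finset.sum_congr rfl fun j _ => hval j, ← Finset.sum_sub_distrib]
    exact Finset.sum_congr rfl fun j _ => by ring
  rw [e3] at hXsq
  rw [← hY2]
  linarith

end Pool.Agent.Helper88.CE
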