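import Pool.Agent.Helper88.CE.Weights

/-!
# Powers `≥ 2` on cones over graphs without closed walks of length `5`
-/

open Finset Pool.Agent.Helper71.CE

namespace Pool.Agent.Helper88.CE

variable {V : Type*} [Fintype V] [DecidableEq V]

theorem pw_eq {b x : ℝ} (hb : 0 < b) (hx : 0 ≤ x) : pw b x = x ^ b := by
  rcases hx.eq_or_lt with h | h
  · rw [← h, pw_zero, Real.zero_rpow hb.ne']
  · exact pw_of_pos h

/-- convexity of the power function, in the form needed -/
theorem pow_diff {b H t T : ℝ} (hb : 1 ≤ b) (hH : 0 ≤ H) (hT : 0 < T) (ht : |t| ≤ T)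
    (hHt : 0 ≤ H + t) : (pw b (H + t) - pw b H) ^ 2 * T ^ 2 ≤
      t ^ 2 * (pw b (H + T) - pw b H) ^ 2 := by
  have hb0 : 0 < b := by linarith
  have hconv := convexOn_rpow hb
  have hmono : pw b H ≤ pw b (H + T) := pw_mono hb0.le hH (by linarith)
  -- the case of nonnegative increments
  have key : ∀ s : ℝ, 0 ≤ s → s ≤ T → (pw b (H + s) - pw b H) * T ≤
      s * (pw b (H + T) - pw b H) := by
    intro s hs hsT
    have h1 := hconv.2 (show H ∈ Set.Ici (0:ℝ) from hH) (show H + T ∈ Set.Ici (0:ℝ) from
      (by show (0:ℝ) ≤ H + T; linarith)) (show 0 ≤ 1 - s / T by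
        rw [sub_nonneg, div_le_one hT]; exact hsT) (show 0 ≤ s / T by positivity) (by ring)
    simp only [smul_eq_mul] at h1
    have e1 : (1 - s / T) * H + s / T * (H + T) = H + s := by
      field_simp
      ring
    rw [e1, ← pw_eq hb0 (by linarith), ← pw_eq hb0 hH, ← pw_eq hb0 (by linarith)] at h1
    have h2 := mul_le_mul_of_nonneg_right h1 hT.le
    have e2 : ((1 - s / T) * pw b H + s / T * pw b (H + T)) * T =
        T * pw b H - s * pw b H + s * pw b (H + T) := by
      field_simp
    rw [e2] at h2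
    linarith
  have habs : |pw b (H + t) - pw b H| * T ≤ |t| * (pw b (H + T) - pw b H) := by
    rcases le_or_gt 0 t with h | h
    · rw [abs_of_nonneg h] at ht ⊢
      rw [abs_of_nonneg (by have := pw_mono hb0.le hH (show H ≤ H + t by linarith); linarith)]
      exact key t h ht
    · have e1 : |t| = -t := abs_of_neg h
      rw [e1] at ht ⊢
      have h1 : pw b (H + t) ≤ pw b H := pw_mono hb0.le hHt (by linarith)
      rw [abs_of_nonpos (by linarith)]
      have h2 := key (-t) (by linarith) ht
      -- midpoint convexity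
      have h3 := hconv.2 (show H + t ∈ Set.Ici (0:ℝ) from hHt)
        (show H + -t ∈ Set.Ici (0:ℝ) from (by show (0:ℝ) ≤ H + -t; linarith))
        (show (0:ℝ) ≤ 1 / 2 by norm_num) (show (0:ℝ) ≤ 1 / 2 by norm_num) (by norm_num)
      simp only [smul_eq_mul] at h3
      have e2 : 1 / 2 * (H + t) + 1 / 2 * (H + -t) = H := by ring
      rw [e2, ← pw_eq hb0 hH, ← pw_eq hb0 hHt, ← pw_eq hb0 (by linarith)] at h3
      have h4 : -(pw b (H + t) - pw b H) ≤ pw b (H + -t) - pw b H := by linarith
      exact (mul_le_mul_of_nonneg_right h4 hT.le).trans h2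
  have h1 := mul_self_le_mul_self (by positivity) habs
  have e1 : |pw b (H + t) - pw b H| * T * (|pw b (H + t) - pw b H| * T) =
      (pw b (H + t) - pw b H) ^ 2 * T ^ 2 := by
    rw [← sq_abs (pw b (H + t) - pw b H)]; ring
  have e2 : |t| * (pw b (H + T) - pw b H) * (|t| * (pw b (H + T) - pw b H)) =
      t ^ 2 * (pw b (H + T) - pw b H) ^ 2 := by
    rw [← sq_abs t]; ring
  rw [e1, e2] at h1
  exact h1

/-- the scalar inequality -/
theorem scalar {b x y z h k : ℝ} (hb : 1 ≤ b) (hh : 0 ≤ h) (hk : 0 ≤ k) (hx : h ^ 2 ≤ x)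
    (hy : k ^ 2 ≤ y) (hz : 0 ≤ z) (hm : (z - h * k) ^ 2 ≤ (x - h ^ 2) * (y - k ^ 2)) :
    (pw b z - pw b h * pw b k) ^ 2 * ((x - h ^ 2) * (y - k ^ 2)) ≤
      (z - h * k) ^ 2 * ((pw b x - pw b h ^ 2) * (pw b y - pw b k ^ 2)) := by
  have hb0 : 0 < b := by linarith
  have hx0 : 0 ≤ x := (sq_nonneg h).trans hx
  have hy0 : 0 ≤ y := (sq_nonneg k).trans hy
  rcases (mul_nonneg (sub_nonneg.2 hx) (sub_nonneg.2 hy)).eq_or_lt with h0 | h0
  · rw [← h0] at hm ⊢
    have : (z - h * k) ^ 2 = 0 := le_antisymm hm (sq_nonneg _)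
    rw [this]; simp
  set T : ℝ := √((x - h ^ 2) * (y - k ^ 2)) with hT
  have hT0 : 0 < T := Real.sqrt_pos.2 h0
  have hTT : T ^ 2 = (x - h ^ 2) * (y - k ^ 2) := Real.sq_sqrt h0.le
  have ht : |z - h * k| ≤ T := by
    rw [← hTT] at hm
    exact abs_le_of_sq_le_sq hm hT0.le
  have h1 := pow_diff hb (mul_nonneg hh hk) hT0 ht (by linarith)
  rw [add_sub_cancel, hTT, pw_mul hh hk] at h1
  refine h1.trans (mul_le_mul_of_nonneg_left ?_ (sq_nonneg _))
  -- two by two FitzGerald-Horn
  let M : Bool → Bool → ℝ := fun i j => cond i (cond j x (h * k + T)) (cond j (h * k + T) y)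
  let l : Bool → ℝ := fun i => cond i h k
  have hMl : Psd (fun i j => M i j - l i * l j) := by
    refine ⟨?_, fun v => ?_⟩
    · rintro (_ | _) (_ | _)
      · rfl
      · show h * k + T - k * h = h * k + T - h * k; ring
      · show h * k + T - h * k = h * k + T - k * h; ring
      · rfl
    · have e : qf (fun i j => M i j - l i * l j) v = v true ^ 2 * (x - h ^ 2) +
          2 * v true * v false * T + v false ^ 2 * (y - k ^ 2) := by
        simp only [qf, Fintype.sum_bool]
        show (v true * (x - h * h) * v true + v true * (h * k + T - h * k) * v false) +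
          (v false * (h * k + T - k * h) * v true + v false * (y - k * k) * v false) = _
        ring
      rw [e]
      have hX : 0 ≤ x - h ^ 2 := by linarith
      have hY : 0 ≤ y - k ^ 2 := by linarith
      have hXs : √(x - h ^ 2) ^ 2 = x - h ^ 2 := Real.sq_sqrt hX
      have hYs : √(y - k ^ 2) ^ 2 = y - k ^ 2 := Real.sq_sqrt hY
      have hTs : T = √(x - h ^ 2) * √(y - k ^ 2) := by rw [hT, Real.sqrt_mul hX]
      rw [hTs, ← hXs, ← hYs]
      rw [Real.sqrt_sq (Real.sqrt_nonneg _), Real.sqrt_sq (Real.sqrt_nonneg _)]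
      nlinarith [sq_nonneg (v true * √(x - h ^ 2) + v false * √(y - k ^ 2))]
  have hc := psd_pow_sub_of_card (V := Bool) (γ := b) hb0.le (by
    rw [Fintype.card_bool]; push_cast; linarith) M l (by
      rintro (_ | _) (_ | _)
      · exact hy0
      · show 0 ≤ h * k + T; positivity
      · show 0 ≤ h * k + T; positivity
      · exact hx0) (by rintro (_ | _) <;> assumption) hMl
  have h2 := hc.minor true false
  have h3 : (pw b (h * k + T) - pw b h * pw b k) ^ 2 ≤
      (pw b x - pw b h * pw b h) * (pw b y - pw b k * pw b k) := h2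
  rw [sq (pw b h), sq (pw b k)]
  exact h3

/-- the correction term is positive semidefinite -/
theorem correction_psd {G : SimpleGraph V} (hG : G.CliqueFree 3)
    (h5 : ∀ a b c d e, G.Adj a b → G.Adj b c → G.Adj c d → G.Adj d e → ¬ G.Adj e a)
    {A : V → V → ℝ} (hA : InPG G A) {h : V → ℝ} (hh : ∀ i, 0 ≤ h i)
    (hD : Psd (fun i j => A i j - h i * h j)) {b : ℝ} (hb : 1 ≤ b) :
    Psd (fun i j => A i j * (pw b (A i j) - pw b (h i) * pw b (h j))) := by
  have hA' := hA
  obtain ⟨hP, h0, hz⟩ := hA
  have hb0 : 0 < b := by linarith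
  have hdiag : ∀ i, h i ^ 2 ≤ A i i := by
    intro i
    have := hD.diag_nonneg i
    nlinarith
  have hDm : ∀ i j, (A i j - h i * h j) ^ 2 ≤ (A i i - h i ^ 2) * (A j j - h j ^ 2) := by
    intro i j
    have := hD.minor i j
    rw [sq (h i), sq (h j)]
    exact this
  -- normalisation
  set s : V → ℝ := fun i => if A i i = 0 then 0 else 1 / √(A i i) with hs
  have hs0 : ∀ i, 0 ≤ s i := by
    intro i; rw [hs]; simp only; split_ifs <;> positivity
  have hss : ∀ i, A i i ≠ 0 → s i ^ 2 * A i i = 1 := by
    intro i hi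
    rw [hs]; simp only [if_neg hi]
    rw [div_pow, one_pow, Real.sq_sqrt (h0 i i)]
    field_simp
  have hs00 : ∀ i, A i i = 0 → s i = 0 := by
    intro i hi; rw [hs]; simp only [if_pos hi]
  set χ : V → ℝ := fun i => if A i i = 0 then 1 else 0 with hχ
  have hχ0 : ∀ i, 0 ≤ χ i := by intro i; rw [hχ]; simp only; split_ifs <;> norm_num
  set R : V → V → ℝ := fun i j => s i * A i j * s j + (if i = j then χ i else 0) with hR
  set c : V → ℝ := fun i => s i * h i with hc
  have hpsdχ : Psd (fun i j : V => if i = j then χ i else 0) := by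
    refine ⟨fun i j => ?_, fun x => ?_⟩
    · show (if i = j then χ i else 0) = (if j = i then χ j else 0)
      by_cases e : i = j
      · rw [if_pos e, if_pos e.symm, e]
      · rw [if_neg e, if_neg (Ne.symm e)]
    · have e : qf (fun i j : V => if i = j then χ i else 0) x = ∑ i, x i ^ 2 * χ i := by
        simp only [qf]
        refine Finset.sum_congr rfl fun i _ => ?_
        rw [Finset.sum_eq_single i]
        · rw [if_pos rfl]; ring
        · intro j _ hj; rw [if_neg (Ne.symm hj)]; ring
        · intro h; exact absurd (mem_univ i) h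
      rw [e]
      exact Finset.sum_nonneg fun i _ => mul_nonneg (sq_nonneg _) (hχ0 i)
  have hcong : ∀ B : V → V → ℝ, Psd B → Psd (fun i j => s i * B i j * s j) := by
    intro B hB
    have := hB.hadamard (psd_rankOne s)
    have e : (fun i j => s i * B i j * s j) = fun i j => B i j * (s i * s j) := by
      funext i j; ring
    rw [e]; exact this
  have hRp : Psd R := (hcong A hP).add hpsdχ
  have hR1 : ∀ i, R i i = 1 := by
    intro i
    rw [hR, hχ]; simp only [if_true]
    by_cases hi : A i i = 0
    · rw [if_pos hi, hs00 i hi]; ring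
    · rw [if_neg hi]
      have := hss i hi
      linear_combination this
  have hRin : InPG G R := by
    refine ⟨hRp, fun i j => ?_, fun i j hij hG => ?_⟩
    · refine add_nonneg (mul_nonneg (mul_nonneg (hs0 i) (h0 i j)) (hs0 j)) ?_
      split_ifs
      · exact hχ0 i
      · exact le_refl _
    · rw [hR]; simp only [if_neg hij]
      rw [hz i j hij hG]; ring
  have hRc : Psd (fun i j => R i j - c i * c j) := by
    have h1 := (hcong _ hD).add hpsdχ
    have e : (fun i j => R i j - c i * c j) =
        fun i j => s i * (A i j - h i * h j) * s j + (if i = j then χ i else 0) := by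
      funext i j; rw [hR, hc]; ring
    rw [e]; exact h1
  obtain ⟨w, hw0, hw1, hw2⟩ := exists_weights hG h5 hRin hR1 hRc
  set F : V → V → ℝ := fun i j => pw b (A i j) - pw b (h i) * pw b (h j) with hF
  have hFd : ∀ i, 0 ≤ F i i := by
    intro i
    rw [hF]; simp only
    rw [← pw_mul (hh i) (hh i), ← sq]
    have := pw_mono hb0.le (sq_nonneg (h i)) (hdiag i)
    linarith
  refine Pool.Agent.Helper76.CT.psd_of_split (u := fun i j => w i j * (A i i * F i i)) ?_ ?_ ?_ ?_
  · intro i j
    rw [hP.1 i j, mul_comm (pw b (h i))]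
  · intro i j
    exact mul_nonneg (hw0 i j) (mul_nonneg (h0 i i) (hFd i))
  · intro i j hij
    show (A i j * F i j) ^ 2 ≤ w i j * (A i i * F i i) * (w j i * (A j j * F j j))
    have hnn : 0 ≤ w i j * (A i i * F i i) * (w j i * (A j j * F j j)) :=
      mul_nonneg (mul_nonneg (hw0 i j) (mul_nonneg (h0 i i) (hFd i)))
        (mul_nonneg (hw0 j i) (mul_nonneg (h0 j j) (hFd j)))
    by_cases hAij : A i j = 0
    · rw [hAij]; simpa using hnn
    have hpos : 0 < A i j ^ 2 := by positivity
    have hm := hP.minor i j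
    have hAi : A i i ≠ 0 := by
      intro e; rw [e, zero_mul] at hm; linarith
    have hAj : A j j ≠ 0 := by
      intro e; rw [e, mul_zero] at hm; linarith
    have hAi0 : 0 < A i i := lt_of_le_of_ne (h0 i i) (Ne.symm hAi)
    have hAj0 : 0 < A j j := lt_of_le_of_ne (h0 j j) (Ne.symm hAj)
    have hsc := scalar hb (hh i) (hh j) (hdiag i) (hdiag j) (h0 i j) (hDm i j)
    have hsc' : F i j ^ 2 * ((A i i - h i ^ 2) * (A j j - h j ^ 2)) ≤
        (A i j - h i * h j) ^ 2 * (F i i * F j j) := by
      have e1 : F i i = pw b (A i i) - pw b (h i) ^ 2 := by rw [hF]; ring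
      have e2 : F j j = pw b (A j j) - pw b (h j) ^ 2 := by rw [hF]; ring
      rw [e1, e2]; exact hsc
    have hdd : 0 ≤ (A i i - h i ^ 2) * (A j j - h j ^ 2) :=
      mul_nonneg (by linarith [hdiag i]) (by linarith [hdiag j])
    rcases hdd.eq_or_lt with hd | hd
    · -- then `F i j = 0`
      have h2 := hDm i j
      rw [← hd] at h2
      have h3 : A i j - h i * h j = 0 := by
        have := le_antisymm h2 (sq_nonneg _)
        exact pow_eq_zero_iff two_ne_zero |>.1 this
      have h4 : F i j = 0 := by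
        rw [hF]; simp only
        rw [← pw_mul (hh i) (hh j)]
        have : A i j = h i * h j := by linarith
        rw [this]; ring
      rw [h4]; simpa using hnn
    · -- the weighted inequality
      have hwij := hw2 i j hij
      have e1 : R i j = s i * A i j * s j := by rw [hR]; simp only [if_neg hij, add_zero]
      have e2 : 1 - c i ^ 2 = s i ^ 2 * (A i i - h i ^ 2) := by
        rw [hc]; simp only; have := hss i hAi; linear_combination -this
      have e3 : 1 - c j ^ 2 = s j ^ 2 * (A j j - h j ^ 2) := by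
        rw [hc]; simp only; have := hss j hAj; linear_combination -this
      have e4 : R i j - c i * c j = s i * (A i j - h i * h j) * s j := by rw [e1, hc]; ring
      rw [e4, e1, e2, e3] at hwij
      have h2 : A i j ^ 2 * (A i j - h i * h j) ^ 2 ≤
          w i j * w j i * ((A i i - h i ^ 2) * (A j j - h j ^ 2)) * (A i i * A j j) := by
        have h3 := mul_le_mul_of_nonneg_right hwij
          (show 0 ≤ A i i ^ 2 * A j j ^ 2 by positivity)
        have a1 := hss i hAi
        have a2 := hss j hAj
        have l1 : (s i * A i j * s j) ^ 2 * (s i * (A i j - h i * h j) * s j) ^ 2 *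
            (A i i ^ 2 * A j j ^ 2) = A i j ^ 2 * (A i j - h i * h j) ^ 2 *
            ((s i ^ 2 * A i i) ^ 2 * (s j ^ 2 * A j j) ^ 2) := by ring
        have l2 : w i j * w j i * (s i ^ 2 * (A i i - h i ^ 2) * (s j ^ 2 * (A j j - h j ^ 2))) *
            (A i i ^ 2 * A j j ^ 2) = w i j * w j i * ((A i i - h i ^ 2) * (A j j - h j ^ 2)) *
            (A i i * A j j) * ((s i ^ 2 * A i i) * (s j ^ 2 * A j j)) := by ring
        rw [l1, l2, a1, a2] at h3
        simpa using h3
      have h6 : (A i j * F i j) ^ 2 * ((A i i - h i ^ 2) * (A j j - h j ^ 2)) ≤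
          w i j * (A i i * F i i) * (w j i * (A j j * F j j)) *
          ((A i i - h i ^ 2) * (A j j - h j ^ 2)) := by
        calc (A i j * F i j) ^ 2 * ((A i i - h i ^ 2) * (A j j - h j ^ 2))
            = A i j ^ 2 * (F i j ^ 2 * ((A i i - h i ^ 2) * (A j j - h j ^ 2))) := by ring
          _ ≤ A i j ^ 2 * ((A i j - h i * h j) ^ 2 * (F i i * F j j)) :=
              mul_le_mul_of_nonneg_left hsc' (sq_nonneg _)
          _ = (A i j ^ 2 * (A i j - h i * h j) ^ 2) * (F i i * F j j) := by ring
          _ ≤ (w i j * w j i * ((A i i - h i ^ 2) * (A j j - h j ^ 2)) * (A i i * A j j)) *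
              (F i i * F j j) := mul_le_mul_of_nonneg_right h2 (mul_nonneg (hFd i) (hFd j))
          _ = _ := by ring
      exact le_of_mul_le_mul_right h6 hd
  · intro i
    show ∑ j ∈ univ.erase i, w i j * (A i i * F i i) ≤ A i i * F i i
    rw [← Finset.sum_mul]
    have := mul_le_mul_of_nonneg_right (hw1 i) (mul_nonneg (h0 i i) (hFd i))
    linarith

/-- all powers `β ≥ 2` preserve positive semidefiniteness on the cone over a graph without closed
walks of length `5` -/
theorem cone_pow_five {G : SimpleGraph V} (hG : G.CliqueFree 3)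
    (h5 : ∀ a b c d e, G.Adj a b → G.Adj b c → G.Adj c d → G.Adj d e → ¬ G.Adj e a)
    {A : Option V → Option V → ℝ} (hA : InPG (cone G) A) {β : ℝ} (hβ : 2 ≤ β) :
    Psd (hpow A β) := by
  have hB := hA.block
  refine psd_hpow_option hA.1 hA.2.1 β (fun _ => Pool.Agent.Helper76.CT.upper hG hB hβ) ?_
  intro h hh hD
  have hE := correction_psd hG h5 hB hh hD (b := β - 1) (by linarith)
  have hM := hD.hadamard (psd_rankOne fun i => pw (β - 1) (h i))
  have h1 := hM.add hE
  have e : (fun i j => pw β (A (some i) (some j)) - pw β (h i) * pw β (h j)) =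
      fun i j => (A (some i) (some j) - h i * h j) * (pw (β - 1) (h i) * pw (β - 1) (h j)) +
        A (some i) (some j) * (pw (β - 1) (A (some i) (some j)) -
          pw (β - 1) (h i) * pw (β - 1) (h j)) := by
    funext i j
    rw [pw_add_one (β := β) (hA.2.1 (some i) (some j)), pw_add_one (β := β) (hh i),
      pw_add_one (β := β) (hh j)]
    ring
  rw [e]
  exact h1

end Pool.Agent.Helper88.CE
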