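import Pool.Agent.Helper88.CE.Weights
import Pool.Agent.Helper71.CE.Main
import Pool.Agent.Helper76.CT.Upper

/-!
# Correction terms, cones and joins
-/

open Finset Pool.Agent.Helper71.CE

namespace Pool.Agent.Helper88.CE

variable {V W : Type*} [Fintype V] [Fintype W]

/-- `P` has a positive semidefinite Hadamard product with every symmetric matrix which is positive
semidefinite on all cliques of `G` -/
def Tame (G : SimpleGraph V) (P : V → V → ℝ) : Prop :=
  ∀ E : V → V → ℝ, (∀ i j, E i j = E j i) → (∀ Q : Set V, G.IsClique Q → PsdOn E Q) →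
    Psd (fun i j => E i j * P i j)

/-- property `DecSq` -/
def DecSq (G : SimpleGraph V) : Prop :=
  ∀ (A : V → V → ℝ) (h : V → ℝ), InPG G A → (∀ i, 0 ≤ h i) →
    Psd (fun i j => A i j - h i * h j) → Tame G (fun i j => A i j * (A i j - h i * h j))

/-- property `DecTwo` -/
def DecTwo (G : SimpleGraph V) : Prop :=
  ∀ A : V → V → ℝ, InPG G A → Tame G (fun i j => A i j * A i j)

theorem Tame.cone {G : SimpleGraph V} {P : Option V → Option V → ℝ} (hP : Psd P)
    (h : Tame G (fun i j => P (some i) (some j))) : Tame (cone G) P := by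
  classical
  intro E hE hQ
  have hs : ∀ i j : Option V, E i j * P i j = E j i * P j i := fun i j => by
    rw [hE i j, hP.1 i j]
  have hEd : 0 ≤ E none none := (hQ {none} (by simp)).diag (Set.mem_singleton none)
  have hQ' : ∀ Q : Set V, G.IsClique Q → PsdOn (fun i j => E (some i) (some j)) Q := by
    intro Q hQG x hx
    have := hQ _ (cone_isClique hQG) (fun o => o.elim 0 x) ?_
    · rw [qf_option E hE] at this
      simpa using this
    · rintro (_ | i) hi
      · rfl
      · exact hx i fun hiQ => hi (Or.inr ⟨i, hiQ, rfl⟩)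
  rcases hEd.eq_or_lt with h0 | h0
  · have hrow : ∀ i : V, E (some i) none = 0 := by
      intro i
      have h1 := (hQ ({none} ∪ some '' {i}) (cone_isClique (by simp))).minor hE
        (i := some i) (j := none) (by simp) (by simp) (by simp)
      rw [← h0, mul_zero] at h1
      exact pow_eq_zero_iff (two_ne_zero) |>.1 (le_antisymm h1 (sq_nonneg _))
    refine psd_of_none_zero hs (by rw [← h0, zero_mul]) (fun i => by rw [hrow i, zero_mul]) ?_
    exact h _ (fun i j => hE _ _) hQ'
  · rcases (hP.diag_nonneg none).eq_or_lt with h0' | h0'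
    · refine psd_of_none_zero hs (by rw [← h0', mul_zero])
        (fun i => by rw [hP.none_zero h0'.symm i, mul_zero]) ?_
      exact h _ (fun i j => hE _ _) hQ'
    · refine psd_of_schur hs (mul_pos h0 h0') ?_
      have h1 := h (schur E) (fun i j => by
        simp only [schur]; rw [hE (some i) (some j)]; ring) (fun Q hQG =>
          qf_psd_on_iff_some E hE Q (hQ _ (cone_isClique hQG)) h0)
      have h2 := (psd_rankOne (fun i : V => E (some i) none / √(E none none))).hadamard
        (psd_schur hP h0')
      have e : schur (fun i j => E i j * P i j) =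
          fun i j : V => (schur E i j * P (some i) (some j)) +
            (E (some i) none / √(E none none) * (E (some j) none / √(E none none))) *
              schur P i j := by
        funext i j
        simp only [schur]
        rw [div_mul_div_comm, Real.mul_self_sqrt h0.le]
        field_simp
        ring
      rw [e]
      exact h1.add h2

theorem Tame.iso {G : SimpleGraph V} {H : SimpleGraph W} (e : G ≃g H) {P : W → W → ℝ}
    (h : Tame G (fun i j => P (e i) (e j))) : Tame H P := by
  intro E hE hQ
  have h2 := h (fun i j => E (e i) (e j)) (fun i j => hE _ _) ?_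
  · have h3 := h2.submatrix (W := W) e.symm
    simpa using h3
  · intro Q hQG x hx
    have h3 := hQ (e '' Q) ?_ (fun w => x (e.symm w)) ?_
    · have : qf E (fun w => x (e.symm w)) = qf (fun i j => E (e i) (e j)) x := by
        simp only [qf]
        rw [← e.toEquiv.sum_comp]
        refine Finset.sum_congr rfl fun i _ => ?_
        rw [← e.toEquiv.sum_comp]
        refine Finset.sum_congr rfl fun j _ => ?_
        simp
      rwa [this] at h3
    · rintro _ ⟨i, hi, rfl⟩ _ ⟨j, hj, rfl⟩ hij
      exact (e.map_adj_iff).2 (hQG hi hj fun h => hij (by rw [h]))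
    · intro w hw
      refine hx _ fun h => hw ⟨_, h, by simp⟩

theorem DecSq.cone {G : SimpleGraph V} (hG : DecSq G) : DecSq (cone G) := fun _A h hA hh hD =>
  Tame.cone (hA.1.hadamard hD) (hG _ (fun i => h (some i)) hA.block (fun _ => hh _)
    (hD.submatrix some))

theorem DecTwo.cone {G : SimpleGraph V} (hG : DecTwo G) : DecTwo (cone G) := fun _A hA =>
  Tame.cone (hA.1.hadamard hA.1) (hG _ hA.block)

theorem DecSq.iso {G : SimpleGraph V} {H : SimpleGraph W} (hG : DecSq G) (e : G ≃g H) :
    DecSq H := fun _A h hA hh hD =>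
  Tame.iso e (hG _ (fun i => h (e i)) (hA.iso e) (fun _ => hh _) (hD.submatrix e))

theorem DecTwo.iso {G : SimpleGraph V} {H : SimpleGraph W} (hG : DecTwo G) (e : G ≃g H) :
    DecTwo H := fun _A hA => Tame.iso e (hG _ (hA.iso e))

/-- triangle-free graphs have property `DecTwo` -/
theorem decTwo_of_cliqueFree {G : SimpleGraph V} (hG : G.CliqueFree 3) : DecTwo G := by
  classical
  intro A hA E hE hQ
  have hE0 : ∀ i, 0 ≤ E i i := fun i => (hQ {i} (by simp)).diag (Set.mem_singleton i)
  have hEm : ∀ i j, G.Adj i j → E i j ^ 2 ≤ E i i * E j j := by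
    intro i j hij
    refine (hQ {i, j} ?_).minor hE (by simp) (by simp) hij.ne
    intro a ha b hb hab
    rcases ha with rfl | rfl <;> rcases hb with rfl | rfl
    · exact absurd rfl hab
    · exact hij
    · exact hij.symm
    · exact absurd rfl hab
  refine Pool.Agent.Helper76.CT.psd_of_split
    (u := fun i j => E i i * A i i * (A i j ^ 2 / A j j)) ?_ ?_ ?_ ?_
  · intro i j
    show E i j * (A i j * A i j) = E j i * (A j i * A j i)
    rw [hE i j, hA.1.1 i j]
  · intro i j
    exact mul_nonneg (mul_nonneg (hE0 i) (hA.2.1 i i)) (div_nonneg (sq_nonneg _) (hA.2.1 j j))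
  · intro i j hij
    show (E i j * (A i j * A i j)) ^ 2 ≤ E i i * A i i * (A i j ^ 2 / A j j) *
      (E j j * A j j * (A j i ^ 2 / A i i))
    by_cases e0 : A i j = 0
    · rw [e0, hA.1.1 j i, e0]; simp
    · have hadj : G.Adj i j := by
        by_contra h
        exact e0 (hA.2.2 i j hij h)
      have hm := hA.1.minor i j
      have hpos : 0 < A i j ^ 2 := by positivity
      have hi : A i i ≠ 0 := by
        intro e; rw [e, zero_mul] at hm; linarith
      have hj : A j j ≠ 0 := by
        intro e; rw [e, mul_zero] at hm; linarith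
      rw [hA.1.1 j i]
      have e1 : E i i * A i i * (A i j ^ 2 / A j j) * (E j j * A j j * (A i j ^ 2 / A i i)) =
          (E i i * E j j) * (A i j ^ 2) ^ 2 := by
        field_simp
      rw [e1]
      have e2 : (E i j * (A i j * A i j)) ^ 2 = E i j ^ 2 * (A i j ^ 2) ^ 2 := by ring
      rw [e2]
      exact mul_le_mul_of_nonneg_right (hEm i j hadj) (by positivity)
  · intro i
    show _ ≤ E i i * (A i i * A i i)
    rw [← mul_sum, ← mul_assoc]
    exact mul_le_mul_of_nonneg_left (Pool.Agent.Helper76.CT.bessel hG hA i)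
      (mul_nonneg (hE0 i) (hA.2.1 i i))

/-- positivity on a set from positivity of the restriction -/
theorem psdOn_of_restrict {E : V → V → ℝ} {Q : Set V} (F : Finset V) (hFQ : ∀ i, i ∈ F ↔ i ∈ Q)
    (h : Psd (fun i j : F => E i j)) : PsdOn E Q := by
  intro x hx
  have h2 := h.2 (fun i => x i)
  have h3 : qf E x = qf (fun i j : F => E i j) (fun i => x i) := by
    simp only [qf]
    rw [Finset.sum_coe_sort F (fun i => ∑ j : F, x i * E i j * x j)]
    rw [← Finset.sum_subset (Finset.subset_univ F) (fun i _ hi => ?_)]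
    · refine Finset.sum_congr rfl fun i _ => ?_
      rw [Finset.sum_coe_sort F (fun j => x i * E i j * x j)]
      rw [← Finset.sum_subset (Finset.subset_univ F) (fun j _ hj => ?_)]
      rw [hx j (fun h => hj ((hFQ j).2 h))]; ring
    · refine Finset.sum_eq_zero fun j _ => ?_
      rw [hx i (fun h => hi ((hFQ i).2 h))]; ring
  rw [h3]; exact h2

/-- edge weights for the correction term -/
def HasWeights [DecidableEq V] (G : SimpleGraph V) : Prop :=
  ∀ (R : V → V → ℝ) (c : V → ℝ), InPG G R → (∀ i, R i i = 1) → (∀ i, 0 ≤ c i) →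
    Psd (fun i j => R i j - c i * c j) →
    ∃ w : V → V → ℝ, (∀ i j, 0 ≤ w i j) ∧ (∀ i, ∑ j ∈ univ.erase i, w i j ≤ 1) ∧
      ∀ i j, i ≠ j → R i j ^ 2 * (R i j - c i * c j) ^ 2 ≤
        w i j * w j i * ((1 - c i ^ 2) * (1 - c j ^ 2))

/-- edge weights give property `DecSq` -/
theorem HasWeights.decSq [DecidableEq V] {G : SimpleGraph V} (hW : HasWeights G) :
    DecSq G := by
  intro A h hA hh hD K hK hKc
  have hA' := hA
  obtain ⟨hP, h0, hz⟩ := hA
  have hK0 : ∀ i, 0 ≤ K i i := fun i => (hKc {i} (by simp)).diag (Set.mem_singleton i)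
  have hKm : ∀ i j, G.Adj i j → K i j ^ 2 ≤ K i i * K j j := by
    intro i j hij
    refine (hKc {i, j} ?_).minor hK (by simp) (by simp) hij.ne
    intro a ha b hb hab
    rcases ha with rfl | rfl <;> rcases hb with rfl | rfl
    · exact absurd rfl hab
    · exact hij
    · exact hij.symm
    · exact absurd rfl hab
  have hdiag : ∀ i, h i ^ 2 ≤ A i i := by
    intro i
    have := hD.diag_nonneg i
    nlinarith
  have hDm : ∀ i j, (A i j - h i * h j) ^ 2 ≤ (A i i - h i ^ 2) * (A j j - h j ^ 2) := by
    intro i j
    have := hD.minor i j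
    rw [sq (h i), sq (h j)]
    exact this
  -- normalisation
  set s : V → ℝ := fun i => if A i i = 0 then 0 else 1 / √(A i i) with hs
  have hs0 : ∀ i, 0 ≤ s i := by
    intro i; rw [hs]; simp only; split_ifs <;> positivity
  have hss : ∀ i, A i i ≠ 0 → s i ^ 2 * A i i = 1 := by
    intro i hi
    rw [hs]; simp only [if_neg hi]
    rw [div_pow, one_pow, Real.sq_sqrt (h0 i i)]
    field_simp
  have hs00 : ∀ i, A i i = 0 → s i = 0 := by
    intro i hi; rw [hs]; simp only [if_pos hi]
  set χ : V → ℝ := fun i => if A i i = 0 then 1 else 0 with hχ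
  have hχ0 : ∀ i, 0 ≤ χ i := by intro i; rw [hχ]; simp only; split_ifs <;> norm_num
  set R : V → V → ℝ := fun i j => s i * A i j * s j + (if i = j then χ i else 0) with hR
  set c : V → ℝ := fun i => s i * h i with hc
  have hpsdχ : Psd (fun i j : V => if i = j then χ i else 0) := by
    refine ⟨fun i j => ?_, fun x => ?_⟩
    · show (if i = j then χ i else 0) = (if j = i then χ j else 0)
      by_cases e : i = j
      · rw [if_pos e, if_pos e.symm, e]
      · rw [if_neg e, if_neg (Ne.symm e)]
    · have e : qf (fun i j : V => if i = j then χ i else 0) x = ∑ i, x i ^ 2 * χ i := by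
        simp only [qf]
        refine Finset.sum_congr rfl fun i _ => ?_
        rw [Finset.sum_eq_single i]
        · rw [if_pos rfl]; ring
        · intro j _ hj; rw [if_neg (Ne.symm hj)]; ring
        · intro h; exact absurd (mem_univ i) h
      rw [e]
      exact Finset.sum_nonneg fun i _ => mul_nonneg (sq_nonneg _) (hχ0 i)
  have hcong : ∀ B : V → V → ℝ, Psd B → Psd (fun i j => s i * B i j * s j) := by
    intro B hB
    have := hB.hadamard (psd_rankOne s)
    have e : (fun i j => s i * B i j * s j) = fun i j => B i j * (s i * s j) := by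
      funext i j; ring
    rw [e]; exact this
  have hRp : Psd R := (hcong A hP).add hpsdχ
  have hR1 : ∀ i, R i i = 1 := by
    intro i
    rw [hR, hχ]; simp only [if_true]
    by_cases hi : A i i = 0
    · rw [if_pos hi, hs00 i hi]; ring
    · rw [if_neg hi]
      have := hss i hi
      linear_combination this
  have hRin : InPG G R := by
    refine ⟨hRp, fun i j => ?_, fun i j hij hG => ?_⟩
    · refine add_nonneg (mul_nonneg (mul_nonneg (hs0 i) (h0 i j)) (hs0 j)) ?_
      split_ifs
      · exact hχ0 i
      · exact le_refl _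
    · rw [hR]; simp only [if_neg hij]
      rw [hz i j hij hG]; ring
  have hRc : Psd (fun i j => R i j - c i * c j) := by
    have h1 := (hcong _ hD).add hpsdχ
    have e : (fun i j => R i j - c i * c j) =
        fun i j => s i * (A i j - h i * h j) * s j + (if i = j then χ i else 0) := by
      funext i j; rw [hR, hc]; ring
    rw [e]; exact h1
  obtain ⟨w, hw0, hw1, hw2⟩ := hW R c hRin hR1 (fun i => mul_nonneg (hs0 i) (hh i)) hRc
  set F : V → V → ℝ := fun i j => K i j * (A i j - h i * h j) with hF
  have hFd : ∀ i, 0 ≤ F i i := by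
    intro i
    rw [hF]; simp only
    exact mul_nonneg (hK0 i) (by have := hdiag i; nlinarith)
  have hKF : (fun i j => K i j * (A i j * (A i j - h i * h j))) = fun i j => A i j * F i j := by
    funext i j; rw [hF]; ring
  rw [hKF]
  refine Pool.Agent.Helper76.CT.psd_of_split (u := fun i j => w i j * (A i i * F i i)) ?_ ?_ ?_ ?_
  · intro i j
    rw [hF]; simp only
    rw [hP.1 i j, hK i j, mul_comm (h i)]
  · intro i j
    exact mul_nonneg (hw0 i j) (mul_nonneg (h0 i i) (hFd i))
  · intro i j hij
    show (A i j * F i j) ^ 2 ≤ w i j * (A i i * F i i) * (w j i * (A j j * F j j))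
    have hnn : 0 ≤ w i j * (A i i * F i i) * (w j i * (A j j * F j j)) :=
      mul_nonneg (mul_nonneg (hw0 i j) (mul_nonneg (h0 i i) (hFd i)))
        (mul_nonneg (hw0 j i) (mul_nonneg (h0 j j) (hFd j)))
    by_cases hAij : A i j = 0
    · rw [hAij]; simpa using hnn
    have hpos : 0 < A i j ^ 2 := by positivity
    have hm := hP.minor i j
    have hAi : A i i ≠ 0 := by
      intro e; rw [e, zero_mul] at hm; linarith
    have hAj : A j j ≠ 0 := by
      intro e; rw [e, mul_zero] at hm; linarith
    have hAi0 : 0 < A i i := lt_of_le_of_ne (h0 i i) (Ne.symm hAi)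
    have hAj0 : 0 < A j j := lt_of_le_of_ne (h0 j j) (Ne.symm hAj)
    have hadj : G.Adj i j := by
      by_contra hn
      exact hAij (hz i j hij hn)
    have hsc' : F i j ^ 2 * ((A i i - h i ^ 2) * (A j j - h j ^ 2)) ≤
        (A i j - h i * h j) ^ 2 * (F i i * F j j) := by
      have e1 : F i i = K i i * (A i i - h i ^ 2) := by rw [hF]; ring
      have e2 : F j j = K j j * (A j j - h j ^ 2) := by rw [hF]; ring
      have e3 : F i j = K i j * (A i j - h i * h j) := by rw [hF]
      rw [e1, e2, e3]
      have hdd : 0 ≤ (A i j - h i * h j) ^ 2 * ((A i i - h i ^ 2) * (A j j - h j ^ 2)) :=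
        mul_nonneg (sq_nonneg _) (mul_nonneg (by linarith [hdiag i]) (by linarith [hdiag j]))
      nlinarith [mul_le_mul_of_nonneg_right (hKm i j hadj) hdd]
    have hdd : 0 ≤ (A i i - h i ^ 2) * (A j j - h j ^ 2) :=
      mul_nonneg (by linarith [hdiag i]) (by linarith [hdiag j])
    rcases hdd.eq_or_lt with hd | hd
    · -- then `F i j = 0`
      have h2 := hDm i j
      rw [← hd] at h2
      have h3 : A i j - h i * h j = 0 := by
        have := le_antisymm h2 (sq_nonneg _)
        exact pow_eq_zero_iff two_ne_zero |>.1 this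
      have h4 : F i j = 0 := by
        rw [hF]; simp only; rw [h3, mul_zero]
      rw [h4]; simpa using hnn
    · -- the weighted inequality
      have hwij := hw2 i j hij
      have e1 : R i j = s i * A i j * s j := by rw [hR]; simp only [if_neg hij, add_zero]
      have e2 : 1 - c i ^ 2 = s i ^ 2 * (A i i - h i ^ 2) := by
        rw [hc]; simp only; have := hss i hAi; linear_combination -this
      have e3 : 1 - c j ^ 2 = s j ^ 2 * (A j j - h j ^ 2) := by
        rw [hc]; simp only; have := hss j hAj; linear_combination -this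
      have e4 : R i j - c i * c j = s i * (A i j - h i * h j) * s j := by rw [e1, hc]; ring
      rw [e4, e1, e2, e3] at hwij
      have h2 : A i j ^ 2 * (A i j - h i * h j) ^ 2 ≤
          w i j * w j i * ((A i i - h i ^ 2) * (A j j - h j ^ 2)) * (A i i * A j j) := by
        have h3 := mul_le_mul_of_nonneg_right hwij
          (show 0 ≤ A i i ^ 2 * A j j ^ 2 by positivity)
        have a1 := hss i hAi
        have a2 := hss j hAj
        have l1 : (s i * A i j * s j) ^ 2 * (s i * (A i j - h i * h j) * s j) ^ 2 *
            (A i i ^ 2 * A j j ^ 2) = A i j ^ 2 * (A i j - h i * h j) ^ 2 *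
            ((s i ^ 2 * A i i) ^ 2 * (s j ^ 2 * A j j) ^ 2) := by ring
        have l2 : w i j * w j i * (s i ^ 2 * (A i i - h i ^ 2) * (s j ^ 2 * (A j j - h j ^ 2))) *
            (A i i ^ 2 * A j j ^ 2) = w i j * w j i * ((A i i - h i ^ 2) * (A j j - h j ^ 2)) *
            (A i i * A j j) * ((s i ^ 2 * A i i) * (s j ^ 2 * A j j)) := by ring
        rw [l1, l2, a1, a2] at h3
        simpa using h3
      have h6 : (A i j * F i j) ^ 2 * ((A i i - h i ^ 2) * (A j j - h j ^ 2)) ≤
          w i j * (A i i * F i i) * (w j i * (A j j * F j j)) *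
          ((A i i - h i ^ 2) * (A j j - h j ^ 2)) := by
        calc (A i j * F i j) ^ 2 * ((A i i - h i ^ 2) * (A j j - h j ^ 2))
            = A i j ^ 2 * (F i j ^ 2 * ((A i i - h i ^ 2) * (A j j - h j ^ 2))) := by ring
          _ ≤ A i j ^ 2 * ((A i j - h i * h j) ^ 2 * (F i i * F j j)) :=
              mul_le_mul_of_nonneg_left hsc' (sq_nonneg _)
          _ = (A i j ^ 2 * (A i j - h i * h j) ^ 2) * (F i i * F j j) := by ring
          _ ≤ (w i j * w j i * ((A i i - h i ^ 2) * (A j j - h j ^ 2)) * (A i i * A j j)) *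
              (F i i * F j j) := mul_le_mul_of_nonneg_right h2 (mul_nonneg (hFd i) (hFd j))
          _ = _ := by ring
      exact le_of_mul_le_mul_right h6 hd
  · intro i
    show ∑ j ∈ univ.erase i, w i j * (A i i * F i i) ≤ A i i * F i i
    rw [← Finset.sum_mul]
    have := mul_le_mul_of_nonneg_right (hw1 i) (mul_nonneg (h0 i i) (hFd i))
    linarith

/-- graphs without closed walks of length `5` have property `DecSq` -/
theorem decSq_five [DecidableEq V] {G : SimpleGraph V} (hG : G.CliqueFree 3)
    (h5 : ∀ a b c d e, G.Adj a b → G.Adj b c → G.Adj c d → G.Adj d e → ¬ G.Adj e a) :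
    DecSq G :=
  HasWeights.decSq fun _R _c hR h1 _ hc => exists_weights hG h5 hR h1 hc

/-- **Main inequality.** `DecSq`, cliques of size at most `w`: all powers `β ≥ w` on the cone -/
theorem sq_cone_pow {G : SimpleGraph V} (hG : DecSq G) {w : ℕ} (hw2 : 2 ≤ w)
    (hw : ∀ Q : Finset V, G.IsClique Q → Q.card ≤ w) {β : ℝ} (hβ : (w : ℝ) ≤ β)
    (hblock : ∀ A, InPG G A → Psd (hpow A β))
    {A : Option V → Option V → ℝ} (hA : InPG (Pool.Agent.Helper71.CE.cone G) A) :
    Psd (hpow A β) := by
  classical
  have hw2' : (2 : ℝ) ≤ w := by exact_mod_cast hw2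
  refine psd_hpow_option hA.1 hA.2.1 β (fun _ => hblock _ hA.block) ?_
  intro k hk hMk
  set M : V → V → ℝ := fun i j => A (some i) (some j) with hM
  have hM0 : ∀ i j, 0 ≤ M i j := fun i j => hA.2.1 _ _
  have hsM : ∀ i j, M i j = M j i := fun i j => hA.1.1 _ _
  obtain ⟨b, hb⟩ : ∃ b, b = β - 1 := ⟨_, rfl⟩
  have hb1 : 1 ≤ b := by linarith
  have hE : Psd (fun i j => M i j * (pw b (M i j) - pw b (k i) * pw b (k j))) := by
    refine ⟨fun i j => by
      show M i j * (pw b (M i j) - pw b (k i) * pw b (k j)) = M j i * (pw b (M j i) - pw b (k j) * pw b (k i))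
      rw [hsM i j, mul_comm (pw b (k i))], fun x => ?_⟩
    set φ : ℝ → ℝ := fun l => ∑ i, ∑ j, x i * (M i j * pw b ((1 - l) * (k i * k j) + l * M i j)) * x j
      with hφ
    have hφ1 : φ 1 = ∑ i, ∑ j, x i * (M i j * pw b (M i j)) * x j := by simp [hφ]
    have hφ0 : φ 0 = ∑ i, ∑ j, x i * (M i j * (pw b (k i) * pw b (k j))) * x j := by
      simp only [hφ]
      refine Finset.sum_congr rfl fun i _ => Finset.sum_congr rfl fun j _ => ?_
      rw [← pw_mul (hk i) (hk j)]
      simp
    have hcont : ContinuousOn φ (Set.Icc 0 1) := by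
      refine continuousOn_finsetSum _ fun i _ => continuousOn_finsetSum _ fun j _ => ?_
      refine ContinuousOn.mul (ContinuousOn.mul continuousOn_const
        (ContinuousOn.mul continuousOn_const ?_)) continuousOn_const
      refine (pw_continuousOn (by linarith : (0 : ℝ) < b)).comp (by fun_prop) ?_
      intro t ht
      exact add_nonneg (mul_nonneg (sub_nonneg.2 ht.2) (mul_nonneg (hk i) (hk j)))
        (mul_nonneg ht.1 (hM0 i j))
    have hder : ∀ l ∈ Set.Ioo (0 : ℝ) 1, HasDerivAt φ
        (b * ∑ i, ∑ j, x i * (pw (b - 1) ((1 - l) * (k i * k j) + l * M i j) *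
          (M i j * (M i j - k i * k j))) * x j) l := by
      intro l hl
      rw [Finset.mul_sum]
      refine HasDerivAt.fun_sum fun i _ => ?_
      rw [Finset.mul_sum]
      refine HasDerivAt.fun_sum fun j _ => ?_
      have := (hasDerivAt_pw (β := b) (mul_nonneg (hk i) (hk j)) (hM0 i j) hl.1 hl.2)
      exact (((this.const_mul (M i j)).const_mul (x i)).mul_const (x j)).congr_deriv (by ring)
    have hmono : MonotoneOn φ (Set.Icc 0 1) := by
      refine monotoneOn_of_deriv_nonneg (convex_Icc 0 1) hcont ?_ ?_
      · rw [interior_Icc]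
        intro l hl
        exact (hder l hl).differentiableAt.differentiableWithinAt
      · rw [interior_Icc]
        intro l hl
        rw [(hder l hl).deriv]
        refine mul_nonneg (by linarith) ?_
        have hpath : Psd (fun i j => (1 - l) * (k i * k j) + l * M i j) := by
          have h1 := psd_rankOne k
          have e : (fun i j => (1 - l) * (k i * k j) + l * M i j) =
              (fun i j => k i * k j + l * (M i j - k i * k j)) := by
            funext i j; ring
          rw [e]
          refine h1.add ⟨fun i j => ?_, fun y => ?_⟩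
          · show l * (M i j - k i * k j) = l * (M j i - k j * k i)
            rw [hsM i j, mul_comm (k i)]
          · have := hMk.2 y
            have e2 : qf (fun i j => l * (M i j - k i * k j)) y =
                l * qf (fun i j => M i j - k i * k j) y := by
              simp only [qf, Finset.mul_sum]
              refine Finset.sum_congr rfl fun i _ => Finset.sum_congr rfl fun j _ => by ring
            rw [e2]
            exact mul_nonneg hl.1.le this
        have hpos : ∀ i j, 0 ≤ (1 - l) * (k i * k j) + l * M i j := fun i j =>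
          add_nonneg (mul_nonneg (sub_nonneg.2 hl.2.le) (mul_nonneg (hk i) (hk j)))
            (mul_nonneg hl.1.le (hM0 i j))
        have h2 := hG M k hA.block hk hMk
          (fun i j => pw (b - 1) ((1 - l) * (k i * k j) + l * M i j))
          (fun i j => by rw [hsM i j, mul_comm (k i)]) ?_
        · exact h2.2 x
        · intro Q hQ
          let F : Finset V := Finset.univ.filter (· ∈ Q)
          have hFQ : ∀ i, i ∈ F ↔ i ∈ Q := fun i => by simp [F]
          have hcard : (Fintype.card F : ℝ) ≤ w := by
            rw [Fintype.card_coe]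
            have : F.card ≤ w := hw F (by
              intro a ha b hb hab
              exact hQ ((hFQ a).1 (Finset.mem_coe.1 ha)) ((hFQ b).1 (Finset.mem_coe.1 hb)) hab)
            exact_mod_cast this
          exact psdOn_of_restrict F hFQ (fitzGerald_horn F _
            (hpath.submatrix (W := F) Subtype.val) (fun i j => hpos _ _) (b - 1) (by linarith)
            (by linarith))
    have hle := hmono (Set.left_mem_Icc.2 zero_le_one) (Set.right_mem_Icc.2 zero_le_one)
      zero_le_one
    have : qf (fun i j => M i j * (pw b (M i j) - pw b (k i) * pw b (k j))) x = φ 1 - φ 0 := by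
      rw [hφ1, hφ0]
      simp only [qf, ← Finset.sum_sub_distrib]
      refine Finset.sum_congr rfl fun i _ => Finset.sum_congr rfl fun j _ => by ring
    rw [this]
    linarith
  have h2 := (psd_rankOne (fun i => pw b (k i))).hadamard hMk
  have e : (fun i j => pw β (A (some i) (some j)) - pw β (k i) * pw β (k j)) =
      fun i j => M i j * (pw b (M i j) - pw b (k i) * pw b (k j)) + (pw b (k i) * pw b (k j)) *
        (A (some i) (some j) - k i * k j) := by
    funext i j
    simp only [hM]
    rw [pw_add_one (β := β) (hA.2.1 (some i) (some j)), pw_add_one (β := β) (hk i),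
      pw_add_one (β := β) (hk j), ← hb]
    ring
  rw [e]
  exact hE.add h2

/-- `DecTwo`, cliques of size at most `w`: all powers `β ≥ w + 1` on the cone -/
theorem two_cone_pow {G : SimpleGraph V} (hG : DecTwo G) {w : ℕ} (hw1 : 1 ≤ w)
    (hw : ∀ Q : Finset V, G.IsClique Q → Q.card ≤ w) {β : ℝ} (hβ : (w : ℝ) + 1 ≤ β)
    (hblock : ∀ A, InPG G A → Psd (hpow A β))
    {A : Option V → Option V → ℝ} (hA : InPG (Pool.Agent.Helper71.CE.cone G) A) :
    Psd (hpow A β) := by
  classical
  have hw1' : (1 : ℝ) ≤ w := by exact_mod_cast hw1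
  refine psd_hpow_option hA.1 hA.2.1 β (fun _ => hblock _ hA.block) ?_
  intro k hk hMk
  set M : V → V → ℝ := fun i j => A (some i) (some j) with hM
  have hM0 : ∀ i j, 0 ≤ M i j := fun i j => hA.2.1 _ _
  have hsM : ∀ i j, M i j = M j i := fun i j => hA.1.1 _ _
  obtain ⟨b, hb⟩ : ∃ b, b = β - 1 - 1 := ⟨_, rfl⟩
  set E : V → V → ℝ := fun i j => pw b (M i j) - pw b (k i) * pw b (k j) with hE
  have h1 := hG M hA.block E (fun i j => by
    simp only [hE]; rw [hsM i j, mul_comm (pw b (k i))]) ?_
  · have h2 := (psd_rankOne (fun i => pw (β - 1) (k i))).hadamard hMk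
    have h3 := (hA.block.1.hadamard (psd_rankOne (fun i => pw b (k i)))).hadamard hMk
    have e : (fun i j => pw β (A (some i) (some j)) - pw β (k i) * pw β (k j)) =
        fun i j => (E i j * (M i j * M i j) + (pw (β - 1) (k i) * pw (β - 1) (k j)) *
          (M i j - k i * k j)) + M i j * (pw b (k i) * pw b (k j)) * (M i j - k i * k j) := by
      funext i j
      simp only [hE, hM]
      rw [pw_add_one (β := β) (hA.2.1 (some i) (some j)), pw_add_one (β := β) (hk i),
        pw_add_one (β := β) (hk j), pw_add_one (β := β - 1) (hA.2.1 (some i) (some j)),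
        pw_add_one (β := β - 1) (hk i), pw_add_one (β := β - 1) (hk j), ← hb]
      ring
    rw [e]
    exact (h1.add h2).add h3
  · intro Q hQ
    let F : Finset V := Finset.univ.filter (· ∈ Q)
    have hFQ : ∀ i, i ∈ F ↔ i ∈ Q := fun i => by simp [F]
    have hcard : (Fintype.card F : ℝ) ≤ w := by
      rw [Fintype.card_coe]
      have : F.card ≤ w := hw F (by
        intro a ha b hb hab
        exact hQ ((hFQ a).1 (Finset.mem_coe.1 ha)) ((hFQ b).1 (Finset.mem_coe.1 hb)) hab)
      exact_mod_cast this
    exact psdOn_of_restrict F hFQ (psd_pow_sub_of_card (V := F) (γ := b) (by linarith)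
      (by linarith) (fun i j => M i j) (fun i => k i) (fun i j => hM0 _ _) (fun i => hk _)
      (hMk.submatrix (W := F) Subtype.val))

/-- `K_0 ∨ B` is `B` -/
def joinZero (V : Type*) {B : SimpleGraph V} : B ≃g join 0 B where
  toEquiv := (Equiv.emptySum (Fin 0) V).symm
  map_rel_iff' := by
    intro a b
    exact join_adj_inr

omit [Fintype V] in
/-- cliques of `K_m ∨ B`, `B` without triangles, have at most `m + 2` vertices -/
theorem join_clique3 {B : SimpleGraph V} (hB : B.CliqueFree 3) (m : ℕ)
    (Q : Finset (Fin m ⊕ V)) (hQ : (join m B).IsClique Q) : Q.card ≤ m + 2 := by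
  classical
  rw [← Finset.card_toLeft_add_card_toRight]
  have h1 : Q.toLeft.card ≤ m := by
    have := Finset.card_le_univ Q.toLeft
    simpa using this
  have h2 : Q.toRight.card ≤ 2 := by
    by_contra hlt
    push Not at hlt
    obtain ⟨t, ht, htc⟩ := Finset.exists_subset_card_eq (show 3 ≤ Q.toRight.card by omega)
    refine hB t ⟨?_, htc⟩
    intro a ha b hb hab
    have ha' : Sum.inr a ∈ Q := Finset.mem_toRight.1 (ht ha)
    have hb' : Sum.inr b ∈ Q := Finset.mem_toRight.1 (ht hb)
    exact join_adj_inr.1 (hQ ha' hb' fun e => hab (Sum.inr_injective e))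
  omega

theorem DecSq.join {B : SimpleGraph V} (h : DecSq B) (m : ℕ) : DecSq (join m B) := by
  induction m with
  | zero => exact h.iso (joinZero V)
  | succ m ih => exact ih.cone.iso (joinIso m B)

theorem DecTwo.join {B : SimpleGraph V} (h : DecTwo B) (m : ℕ) : DecTwo (join m B) := by
  induction m with
  | zero => exact h.iso (joinZero V)
  | succ m ih => exact ih.cone.iso (joinIso m B)

theorem psd_of_iso {G : SimpleGraph V} {H : SimpleGraph W} (e : G ≃g H) {β : ℝ} {A : W → W → ℝ}
    (h : Psd (hpow (fun i j => A (e i) (e j)) β)) : Psd (hpow A β) := by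
  have h2 := h.submatrix (W := W) e.symm
  have e' : (fun i j => hpow (fun i j => A (e i) (e j)) β (e.symm i) (e.symm j)) = hpow A β := by
    funext i j
    simp [hpow]
  rwa [e'] at h2

/-- powers on `K_m ∨ B`, `B` triangle-free with property `DecSq` -/
theorem join_pow_sq {B : SimpleGraph V} (hB : B.CliqueFree 3) (hD : DecSq B) (m : ℕ)
    {β : ℝ} (hβ : (m : ℝ) + 1 ≤ β) (hβ2 : 2 ≤ β) {A : Fin m ⊕ V → Fin m ⊕ V → ℝ}
    (hA : InPG (join m B) A) : Psd (hpow A β) := by
  induction m with
  | zero =>
    exact psd_of_iso (joinZero V) (Pool.Agent.Helper76.CT.upper hB (hA.iso (joinZero V)) hβ2)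
  | succ m ih =>
    push_cast at hβ
    refine psd_of_iso (joinIso m B) (sq_cone_pow (hD.join m) (w := m + 2) (by omega)
      (fun Q hQ => join_clique3 hB m Q hQ) (β := β) (by push_cast; linarith)
      (fun A hA => ih (by linarith) hA) (hA.iso (joinIso m B)))

/-- powers on `K_m ∨ B`, `B` triangle-free -/
theorem join_pow_two {B : SimpleGraph V} (hB : B.CliqueFree 3) (m : ℕ)
    {β : ℝ} (hβ : (m : ℝ) + 2 ≤ β) {A : Fin m ⊕ V → Fin m ⊕ V → ℝ}
    (hA : InPG (join m B) A) : Psd (hpow A β) := by
  induction m with
  | zero =>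
    exact psd_of_iso (joinZero V) (Pool.Agent.Helper76.CT.upper hB (hA.iso (joinZero V))
      (by simpa using hβ))
  | succ m ih =>
    push_cast at hβ
    refine psd_of_iso (joinIso m B) (two_cone_pow ((decTwo_of_cliqueFree hB).join m) (w := m + 2)
      (by omega) (fun Q hQ => join_clique3 hB m Q hQ) (β := β) (by push_cast; linarith)
      (fun A hA => ih (by linarith) hA) (hA.iso (joinIso m B)))

end Pool.Agent.Helper88.CE
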