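import Pool.Agent.Helper11.K1.Exists
import Pool.Agent.Helper88.CE.Joins

/-!
# Subgraphs, disjoint unions, and triangle-free depth
-/

open Finset Pool.Agent.Helper71.CE

namespace Pool.Agent.Helper88.CE

/-- triangle-free graphs have property `DecSq` -/
theorem decSq_of_cliqueFree {V : Type*} [Fintype V] {G : SimpleGraph V} (hG : G.CliqueFree 3) :
    DecSq G := by
  classical
  exact HasWeights.decSq fun R c hR h1 h0 hc =>
    Pool.Agent.Helper11.K1.exists_weights hG hR h1 h0 hc

section embed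

set_option linter.unusedSectionVars false

variable {V W : Type*} [Fintype V] [Fintype W]

/-- the matrix `A`, moved along an injection, with zeros elsewhere -/
noncomputable def push (f : V → W) (A : V → V → ℝ) (i j : W) : ℝ := by
  classical
  exact ∑ a, ∑ b, if f a = i ∧ f b = j then A a b else 0

theorem push_apply {f : V → W} (hf : Function.Injective f) (A : V → V → ℝ) (a b : V) :
    push f A (f a) (f b) = A a b := by
  classical
  unfold push
  rw [Finset.sum_eq_single a, Finset.sum_eq_single b]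
  · simp
  · intro c _ hc
    rw [if_neg]
    rintro ⟨-, h⟩
    exact hc (hf h)
  · simp
  · intro c _ hc
    refine Finset.sum_eq_zero fun d _ => ?_
    rw [if_neg]
    rintro ⟨h, -⟩
    exact hc (hf h)
  · simp

theorem qf_push (f : V → W) (A : V → V → ℝ) (x : W → ℝ) :
    qf (push f A) x = qf A (fun a => x (f a)) := by
  classical
  simp only [qf, push]
  have e1 : ∀ i j : W, x i * (∑ a, ∑ b, if f a = i ∧ f b = j then A a b else 0) * x j =
      ∑ a, ∑ b, if f a = i ∧ f b = j then x (f a) * A a b * x (f b) else 0 := by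
    intro i j
    rw [Finset.mul_sum, Finset.sum_mul]
    refine Finset.sum_congr rfl fun a _ => ?_
    rw [Finset.mul_sum, Finset.sum_mul]
    refine Finset.sum_congr rfl fun b _ => ?_
    by_cases h : f a = i ∧ f b = j
    · rw [if_pos h, if_pos h, h.1, h.2]
    · rw [if_neg h, if_neg h]; ring
  simp only [e1]
  have e2 : ∀ i : W, ∑ j : W, ∑ a, ∑ b,
      (if f a = i ∧ f b = j then x (f a) * A a b * x (f b) else 0) =
      ∑ a, ∑ b, if f a = i then x (f a) * A a b * x (f b) else 0 := by
    intro i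
    rw [Finset.sum_comm]
    refine Finset.sum_congr rfl fun a _ => ?_
    rw [Finset.sum_comm]
    refine Finset.sum_congr rfl fun b _ => ?_
    rw [Finset.sum_eq_single (f b)]
    · simp
    · intro j _ hj
      rw [if_neg]
      rintro ⟨-, h⟩
      exact hj h.symm
    · simp
  simp only [e2]
  rw [Finset.sum_comm]
  refine Finset.sum_congr rfl fun a _ => ?_
  rw [Finset.sum_comm]
  refine Finset.sum_congr rfl fun b _ => ?_
  rw [Finset.sum_eq_single (f a)]
  · simp
  · intro i _ hi
    rw [if_neg]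
    exact fun h => hi h.symm
  · simp

theorem push_symm (f : V → W) {A : V → V → ℝ} (h : ∀ i j, A i j = A j i) (i j : W) :
    push f A i j = push f A j i := by
  classical
  unfold push
  rw [Finset.sum_comm]
  refine Finset.sum_congr rfl fun a _ => Finset.sum_congr rfl fun b _ => ?_
  rw [h b a]
  by_cases hh : f b = i ∧ f a = j
  · rw [if_pos hh, if_pos ⟨hh.2, hh.1⟩]
  · rw [if_neg hh, if_neg fun h => hh ⟨h.2, h.1⟩]

/-- matrices with pattern `G` become matrices with pattern `H` -/
theorem inPG_push {G : SimpleGraph V} {H : SimpleGraph W} {f : V → W}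
    (hfa : ∀ a b, G.Adj a b → H.Adj (f a) (f b))
    {A : V → V → ℝ} (hA : InPG G A) : InPG H (push f A) := by
  classical
  obtain ⟨hP, h0, hz⟩ := hA
  refine ⟨⟨push_symm f hP.1, fun x => ?_⟩, fun i j => ?_, fun i j hij hn => ?_⟩
  · rw [qf_push]
    exact hP.2 _
  · unfold push
    refine Finset.sum_nonneg fun a _ => Finset.sum_nonneg fun b _ => ?_
    split_ifs
    · exact h0 a b
    · exact le_refl _
  · unfold push
    refine Finset.sum_eq_zero fun a _ => Finset.sum_eq_zero fun b _ => ?_
    split_ifs with h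
    · refine hz a b (fun e => hij ?_) fun e => hn ?_
      · rw [← h.1, ← h.2, e]
      · rw [← h.1, ← h.2]
        exact hfa a b e
    · rfl

/-- a power which preserves positivity for `H` does so for all subgraphs of `H` -/
theorem pow_of_embed {G : SimpleGraph V} {H : SimpleGraph W} {f : V → W}
    (hf : Function.Injective f) (hfa : ∀ a b, G.Adj a b → H.Adj (f a) (f b)) {β : ℝ}
    (h : ∀ A, InPG H A → Psd (hpow A β)) {A : V → V → ℝ} (hA : InPG G A) : Psd (hpow A β) := by
  have h2 := (h _ (inPG_push hfa hA)).submatrix f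
  have e : (fun i j => hpow (push f A) β (f i) (f j)) = hpow A β := by
    funext i j
    simp only [hpow, push_apply hf]
  rwa [e] at h2

end embed

/-- cones of graph homomorphisms -/
theorem cone_map {V W : Type*} {G : SimpleGraph V} {H : SimpleGraph W} {f : V → W}
    (hf : Function.Injective f) (hfa : ∀ a b, G.Adj a b → H.Adj (f a) (f b)) :
    ∀ a b, (cone G).Adj a b → (cone H).Adj (Option.map f a) (Option.map f b) := by
  rintro a b ⟨hab, h⟩
  refine ⟨fun e => hab (Option.map_injective hf e), ?_⟩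
  rintro i hi j hj
  rw [Option.mem_def, Option.map_eq_some_iff] at hi hj
  obtain ⟨a', ha, rfl⟩ := hi
  obtain ⟨b', hb, rfl⟩ := hj
  exact hfa _ _ (h a' ha b' hb)

/-- the invariant: `DecSq`, cliques with at most `k + 2` vertices, powers `β ≥ max (k + 1) 2` -/
structure Inv {W : Type*} [Fintype W] (H : SimpleGraph W) (k : ℕ) : Prop where
  dec : DecSq H
  cl : ∀ Q : Finset W, H.IsClique Q → Q.card ≤ k + 2
  pow : ∀ A, InPG H A → ∀ β : ℝ, (k : ℝ) + 1 ≤ β → 2 ≤ β → Psd (hpow A β)

theorem Inv.base {W : Type*} [Fintype W] {H : SimpleGraph W} (h : H.CliqueFree 3) : Inv H 0 where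
  dec := decSq_of_cliqueFree h
  cl := by
    intro Q hQ
    by_contra hlt
    push Not at hlt
    obtain ⟨T, hT, hc⟩ := Finset.exists_subset_card_eq (s := Q) (n := 3) (by omega)
    exact h T ⟨hQ.subset (by exact_mod_cast hT), hc⟩
  pow := fun A hA β _ h2 => Pool.Agent.Helper76.CT.upper h hA h2

theorem Inv.cone {W : Type*} [Fintype W] {H : SimpleGraph W} {k : ℕ} (h : Inv H k) :
    Inv (cone H) (k + 1) where
  dec := h.dec.cone
  cl := by
    classical
    intro Q hQ
    have h1 : Q ⊆ insert none ((Finset.eraseNone Q).map Function.Embedding.some) := by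
      rintro (_ | a) ha
      · simp
      · simpa using ha
    have h2 : (Finset.eraseNone Q).card ≤ k + 2 := by
      refine h.cl _ ?_
      intro a ha b hb hab
      rw [Finset.mem_coe, Finset.mem_eraseNone] at ha hb
      exact cone_adj_some.1 (hQ ha hb (by simpa using hab))
    have h3 := Finset.card_le_card h1
    have h4 := Finset.card_insert_le (none : Option W)
      ((Finset.eraseNone Q).map Function.Embedding.some)
    rw [Finset.card_map] at h4
    omega
  pow := by
    intro A hA β hβ h2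
    push_cast at hβ
    exact sq_cone_pow h.dec (w := k + 2) (by omega) h.cl (by push_cast; linarith)
      (fun A hA => h.pow A hA β (by linarith) h2) hA

/-- the disjoint union -/
def dsum {V W : Type*} (G : SimpleGraph V) (H : SimpleGraph W) : SimpleGraph (V ⊕ W) where
  Adj a b := (∃ i j, a = Sum.inl i ∧ b = Sum.inl j ∧ G.Adj i j) ∨
    ∃ i j, a = Sum.inr i ∧ b = Sum.inr j ∧ H.Adj i j
  symm := ⟨by
    rintro a b (⟨i, j, ha, hb, h⟩ | ⟨i, j, ha, hb, h⟩)
    · exact Or.inl ⟨j, i, hb, ha, h.symm⟩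
    · exact Or.inr ⟨j, i, hb, ha, h.symm⟩⟩
  loopless := ⟨by
    rintro a (⟨i, j, ha, hb, h⟩ | ⟨i, j, ha, hb, h⟩)
    · rw [ha] at hb
      exact h.ne (Sum.inl.inj hb)
    · rw [ha] at hb
      exact h.ne (Sum.inr.inj hb)⟩

section dsum

variable {V W : Type*} {G : SimpleGraph V} {H : SimpleGraph W}

theorem dsum_inl {i j : V} : (dsum G H).Adj (Sum.inl i) (Sum.inl j) ↔ G.Adj i j := by
  constructor
  · rintro (⟨a, b, ha, hb, h⟩ | ⟨a, b, ha, hb, h⟩)
    · rw [Sum.inl.inj ha, Sum.inl.inj hb]; exact h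
    · exact absurd ha (by simp)
  · exact fun h => Or.inl ⟨i, j, rfl, rfl, h⟩

theorem dsum_inr {i j : W} : (dsum G H).Adj (Sum.inr i) (Sum.inr j) ↔ H.Adj i j := by
  constructor
  · rintro (⟨a, b, ha, hb, h⟩ | ⟨a, b, ha, hb, h⟩)
    · exact absurd ha (by simp)
    · rw [Sum.inr.inj ha, Sum.inr.inj hb]; exact h
  · exact fun h => Or.inr ⟨i, j, rfl, rfl, h⟩

theorem dsum_lr {i : V} {j : W} : ¬ (dsum G H).Adj (Sum.inl i) (Sum.inr j) := by
  rintro (⟨a, b, ha, hb, h⟩ | ⟨a, b, ha, hb, h⟩)
  · exact absurd hb (by simp)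
  · exact absurd ha (by simp)

variable [Fintype V] [Fintype W]

/-- block diagonal matrices -/
theorem psd_block {P : V ⊕ W → V ⊕ W → ℝ} (hs : ∀ i j, P i j = P j i)
    (h0 : ∀ i j, P (Sum.inl i) (Sum.inr j) = 0)
    (h1 : Psd fun i j => P (Sum.inl i) (Sum.inl j))
    (h2 : Psd fun i j => P (Sum.inr i) (Sum.inr j)) : Psd P := by
  refine ⟨hs, fun x => ?_⟩
  have e : qf P x = qf (fun i j => P (Sum.inl i) (Sum.inl j)) (fun i => x (Sum.inl i)) +
      qf (fun i j => P (Sum.inr i) (Sum.inr j)) (fun i => x (Sum.inr i)) := by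
    simp only [qf, Fintype.sum_sum_type]
    have e1 : ∀ i j, P (Sum.inr i) (Sum.inl j) = 0 := fun i j => by rw [hs]; exact h0 j i
    simp only [h0, e1]
    simp
  rw [e]
  exact add_nonneg (h1.2 _) (h2.2 _)

theorem inPG_left {A : V ⊕ W → V ⊕ W → ℝ} (hA : InPG (dsum G H) A) :
    InPG G fun i j => A (Sum.inl i) (Sum.inl j) :=
  ⟨hA.1.submatrix Sum.inl, fun _ _ => hA.2.1 _ _, fun _ _ hij h =>
    hA.2.2 _ _ (fun e => hij (Sum.inl.inj e)) fun e => h (dsum_inl.1 e)⟩

theorem inPG_right {A : V ⊕ W → V ⊕ W → ℝ} (hA : InPG (dsum G H) A) :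
    InPG H fun i j => A (Sum.inr i) (Sum.inr j) :=
  ⟨hA.1.submatrix Sum.inr, fun _ _ => hA.2.1 _ _, fun _ _ hij h =>
    hA.2.2 _ _ (fun e => hij (Sum.inr.inj e)) fun e => h (dsum_inr.1 e)⟩

theorem inPG_cross {A : V ⊕ W → V ⊕ W → ℝ} (hA : InPG (dsum G H) A) (i : V) (j : W) :
    A (Sum.inl i) (Sum.inr j) = 0 := hA.2.2 _ _ (by simp) dsum_lr

theorem psdOn_inl {E : V ⊕ W → V ⊕ W → ℝ} {Q : Set V} (h : PsdOn E (Sum.inl '' Q)) :
    PsdOn (fun i j => E (Sum.inl i) (Sum.inl j)) Q := by
  intro x hx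
  have h2 := h (Sum.elim x 0) (by
    rintro (i | i) hi
    · exact hx i fun hiQ => hi ⟨i, hiQ, rfl⟩
    · rfl)
  have e : qf E (Sum.elim x 0) = qf (fun i j => E (Sum.inl i) (Sum.inl j)) x := by
    simp [qf, Fintype.sum_sum_type]
  rwa [e] at h2

theorem psdOn_inr {E : V ⊕ W → V ⊕ W → ℝ} {Q : Set W} (h : PsdOn E (Sum.inr '' Q)) :
    PsdOn (fun i j => E (Sum.inr i) (Sum.inr j)) Q := by
  intro x hx
  have h2 := h (Sum.elim 0 x) (by
    rintro (i | i) hi
    · rfl
    · exact hx i fun hiQ => hi ⟨i, hiQ, rfl⟩)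
  have e : qf E (Sum.elim 0 x) = qf (fun i j => E (Sum.inr i) (Sum.inr j)) x := by
    simp [qf, Fintype.sum_sum_type]
  rwa [e] at h2

theorem DecSq.dsum (h1 : DecSq G) (h2 : DecSq H) : DecSq (dsum G H) := by
  intro A h hA hh hD E hE hQ
  refine psd_block ?_ ?_ ?_ ?_
  · intro i j
    show E i j * (A i j * (A i j - h i * h j)) = E j i * (A j i * (A j i - h j * h i))
    rw [hE i j, hA.1.1 i j]
    ring
  · intro i j
    show E (Sum.inl i) (Sum.inr j) * (A (Sum.inl i) (Sum.inr j) * _) = 0
    rw [inPG_cross hA i j]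
    ring
  · refine h1 _ (fun i => h (Sum.inl i)) (inPG_left hA) (fun i => hh _) (hD.submatrix Sum.inl)
      (fun i j => E (Sum.inl i) (Sum.inl j)) (fun i j => hE _ _) fun Q hQG => ?_
    refine psdOn_inl (hQ _ ?_)
    rintro _ ⟨i, hi, rfl⟩ _ ⟨j, hj, rfl⟩ hij
    exact dsum_inl.2 (hQG hi hj fun e => hij (by rw [e]))
  · refine h2 _ (fun i => h (Sum.inr i)) (inPG_right hA) (fun i => hh _) (hD.submatrix Sum.inr)
      (fun i j => E (Sum.inr i) (Sum.inr j)) (fun i j => hE _ _) fun Q hQG => ?_
    refine psdOn_inr (hQ _ ?_)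
    rintro _ ⟨i, hi, rfl⟩ _ ⟨j, hj, rfl⟩ hij
    exact dsum_inr.2 (hQG hi hj fun e => hij (by rw [e]))

theorem Inv.dsum {k : ℕ} (h1 : Inv G k) (h2 : Inv H k) : Inv (dsum G H) k where
  dec := h1.dec.dsum h2.dec
  cl := by
    classical
    intro Q hQ
    have hcase : (∀ a ∈ Q, ∃ i, a = Sum.inl i) ∨ ∀ a ∈ Q, ∃ i, a = Sum.inr i := by
      by_contra hcon
      push Not at hcon
      obtain ⟨⟨a, ha, ha'⟩, b, hb, hb'⟩ := hcon
      rcases a with a | a
      · exact ha' a rfl
      · rcases b with b | b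
        · exact dsum_lr (hQ (show Sum.inl b ∈ (Q : Set (V ⊕ W)) from hb)
            (show Sum.inr a ∈ (Q : Set (V ⊕ W)) from ha) (by simp))
        · exact hb' b rfl
    rcases hcase with hc | hc
    · have e : (Q.toLeft).card = Q.card := by
        rw [← Finset.card_map ⟨Sum.inl, Sum.inl_injective⟩ (s := Q.toLeft)]
        congr 1
        ext a
        rcases a with a | a
        · simp
        · simp only [Finset.mem_map, Finset.mem_toLeft, Function.Embedding.coeFn_mk]
          constructor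
          · rintro ⟨b, -, hb⟩; exact absurd hb (by simp)
          · intro ha; obtain ⟨i, hi⟩ := hc _ ha; exact absurd hi (by simp)
      rw [← e]
      refine h1.cl _ fun i hi j hj hij => ?_
      rw [Finset.mem_coe, Finset.mem_toLeft] at hi hj
      exact dsum_inl.1 (hQ hi hj (by simpa using hij))
    · have e : (Q.toRight).card = Q.card := by
        rw [← Finset.card_map ⟨Sum.inr, Sum.inr_injective⟩ (s := Q.toRight)]
        congr 1
        ext a
        rcases a with a | a
        · simp only [Finset.mem_map, Finset.mem_toRight, Function.Embedding.coeFn_mk]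
          constructor
          · rintro ⟨b, -, hb⟩; exact absurd hb (by simp)
          · intro ha; obtain ⟨i, hi⟩ := hc _ ha; exact absurd hi (by simp)
        · simp
      rw [← e]
      refine h2.cl _ fun i hi j hj hij => ?_
      rw [Finset.mem_coe, Finset.mem_toRight] at hi hj
      exact dsum_inr.1 (hQ hi hj (by simpa using hij))
  pow := by
    intro A hA β hβ h2'
    refine psd_block ?_ ?_ (h1.pow _ (inPG_left hA) β hβ h2') (h2.pow _ (inPG_right hA) β hβ h2')
    · intro i j
      simp only [hpow]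
      rw [hA.1.1 i j]
    · intro i j
      simp only [hpow, inPG_cross hA i j]
      exact pw_zero β

end dsum

end Pool.Agent.Helper88.CE
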