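import Pool.Agent.Helper88.CE.Depth

/-!
# Adding an independent set

If all powers `β ≥ b` preserve positivity on the cone over `G`, then all powers `β ≥ b + 1` do so on
the join of `G` with any independent set.
-/

open Finset Pool.Agent.Helper71.CE

namespace Pool.Agent.Helper88.CE

universe u

section indep

variable {W K : Type*} [Fintype W] [Fintype K]

/-- the vertex `k` of the independent part together with `W` -/
def withK (k : K) : Option W → W ⊕ K := fun o => o.elim (Sum.inr k) Sum.inl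

theorem psd_zero {V : Type*} [Fintype V] : Psd (fun _ _ : V => (0 : ℝ)) :=
  ⟨fun _ _ => rfl, fun x => by simp [qf]⟩

theorem psd_sum {V ι : Type*} [Fintype V] (s : Finset ι) (F : ι → V → V → ℝ)
    (h : ∀ k ∈ s, Psd (F k)) : Psd (fun i j => ∑ k ∈ s, F k i j) := by
  classical
  induction s using Finset.induction_on with
  | empty => simpa using psd_zero
  | insert a s ha ih =>
    have h1 := (h a (Finset.mem_insert_self a s)).add
      (ih fun k hk => h k (Finset.mem_insert_of_mem hk))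
    have e : (fun i j => ∑ k ∈ insert a s, F k i j) =
        fun i j => F a i j + ∑ k ∈ s, F k i j := by
      funext i j
      rw [Finset.sum_insert ha]
    rw [e]
    exact h1

theorem qf_sum (P : W ⊕ K → W ⊕ K → ℝ) (hs : ∀ i j, P i j = P j i)
    (hK : ∀ k l, k ≠ l → P (Sum.inr k) (Sum.inr l) = 0) (x : W ⊕ K → ℝ) :
    qf P x = qf (fun i j => P (Sum.inl i) (Sum.inl j)) (fun i => x (Sum.inl i)) +
      ∑ k, (2 * x (Sum.inr k) * (∑ i, x (Sum.inl i) * P (Sum.inl i) (Sum.inr k)) +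
        P (Sum.inr k) (Sum.inr k) * x (Sum.inr k) ^ 2) := by
  classical
  simp only [qf, Fintype.sum_sum_type]
  have h1 : ∀ k, ∑ l, x (Sum.inr k) * P (Sum.inr k) (Sum.inr l) * x (Sum.inr l) =
      P (Sum.inr k) (Sum.inr k) * x (Sum.inr k) ^ 2 := by
    intro k
    rw [Finset.sum_eq_single k]
    · ring
    · intro l _ hl
      rw [hK k l (Ne.symm hl)]; ring
    · intro h; exact absurd (Finset.mem_univ k) h
  have h2 : ∀ k, ∑ j, x (Sum.inr k) * P (Sum.inr k) (Sum.inl j) * x (Sum.inl j) =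
      x (Sum.inr k) * ∑ i, x (Sum.inl i) * P (Sum.inl i) (Sum.inr k) := by
    intro k
    rw [Finset.mul_sum]
    refine Finset.sum_congr rfl fun j _ => ?_
    rw [hs (Sum.inr k) (Sum.inl j)]; ring
  have h3 : ∑ i, ∑ k, x (Sum.inl i) * P (Sum.inl i) (Sum.inr k) * x (Sum.inr k) =
      ∑ k, x (Sum.inr k) * ∑ i, x (Sum.inl i) * P (Sum.inl i) (Sum.inr k) := by
    rw [Finset.sum_comm]
    refine Finset.sum_congr rfl fun k _ => ?_
    rw [Finset.mul_sum]
    refine Finset.sum_congr rfl fun j _ => ?_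
    ring
  simp only [h1, h2, Finset.sum_add_distrib]
  rw [h3]
  have h4 : ∑ k, 2 * x (Sum.inr k) * (∑ i, x (Sum.inl i) * P (Sum.inl i) (Sum.inr k)) =
      2 * ∑ k, x (Sum.inr k) * ∑ i, x (Sum.inl i) * P (Sum.inl i) (Sum.inr k) := by
    rw [Finset.mul_sum]
    refine Finset.sum_congr rfl fun k _ => by ring
  rw [h4]
  ring

/-- the Schur complement with respect to the independent part -/
noncomputable def schurK (P : W ⊕ K → W ⊕ K → ℝ) : W → W → ℝ := fun i j =>
  P (Sum.inl i) (Sum.inl j) - ∑ k, P (Sum.inl i) (Sum.inr k) * P (Sum.inl j) (Sum.inr k) /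
    P (Sum.inr k) (Sum.inr k)

theorem qf_schurK (P : W ⊕ K → W ⊕ K → ℝ) (y : W → ℝ) :
    qf (schurK P) y = qf (fun i j => P (Sum.inl i) (Sum.inl j)) y -
      ∑ k, (∑ i, y i * P (Sum.inl i) (Sum.inr k)) ^ 2 / P (Sum.inr k) (Sum.inr k) := by
  simp only [qf, schurK]
  have h1 : ∀ k, (∑ i, y i * P (Sum.inl i) (Sum.inr k)) ^ 2 / P (Sum.inr k) (Sum.inr k) =
      ∑ i, ∑ j, y i * (P (Sum.inl i) (Sum.inr k) * P (Sum.inl j) (Sum.inr k) /
        P (Sum.inr k) (Sum.inr k)) * y j := by
    intro k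
    rw [sq, Finset.sum_mul_sum, Finset.sum_div]
    refine Finset.sum_congr rfl fun i _ => ?_
    rw [Finset.sum_div]
    refine Finset.sum_congr rfl fun j _ => ?_
    ring
  simp only [h1]
  have h2 : ∑ k, ∑ i, ∑ j, y i * (P (Sum.inl i) (Sum.inr k) * P (Sum.inl j) (Sum.inr k) /
        P (Sum.inr k) (Sum.inr k)) * y j =
      ∑ i, ∑ j, ∑ k, y i * (P (Sum.inl i) (Sum.inr k) * P (Sum.inl j) (Sum.inr k) /
        P (Sum.inr k) (Sum.inr k)) * y j := by
    rw [Finset.sum_comm]
    refine Finset.sum_congr rfl fun i _ => ?_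
    rw [Finset.sum_comm]
  rw [h2, ← Finset.sum_sub_distrib]
  refine Finset.sum_congr rfl fun i _ => ?_
  rw [← Finset.sum_sub_distrib]
  refine Finset.sum_congr rfl fun j _ => ?_
  rw [mul_sub, sub_mul, Finset.mul_sum, Finset.sum_mul]

theorem qf_split (P : W ⊕ K → W ⊕ K → ℝ) (hs : ∀ i j, P i j = P j i)
    (hK : ∀ k l, k ≠ l → P (Sum.inr k) (Sum.inr l) = 0)
    (hz : ∀ k, P (Sum.inr k) (Sum.inr k) = 0 → ∀ i, P (Sum.inl i) (Sum.inr k) = 0)
    (x : W ⊕ K → ℝ) :
    qf P x = qf (schurK P) (fun i => x (Sum.inl i)) + ∑ k, P (Sum.inr k) (Sum.inr k) *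
      (x (Sum.inr k) + (∑ i, x (Sum.inl i) * P (Sum.inl i) (Sum.inr k)) /
        P (Sum.inr k) (Sum.inr k)) ^ 2 := by
  rw [qf_sum P hs hK, qf_schurK, sub_add_eq_add_sub, add_sub_assoc, ← Finset.sum_sub_distrib]
  congr 1
  refine Finset.sum_congr rfl fun k _ => ?_
  by_cases h0 : P (Sum.inr k) (Sum.inr k) = 0
  · have h1 : ∑ i, x (Sum.inl i) * P (Sum.inl i) (Sum.inr k) = 0 :=
      Finset.sum_eq_zero fun i _ => by rw [hz k h0 i, mul_zero]
    rw [h0, h1]; ring
  · field_simp
    ring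

theorem psd_of_schurK {P : W ⊕ K → W ⊕ K → ℝ} (hs : ∀ i j, P i j = P j i)
    (hK : ∀ k l, k ≠ l → P (Sum.inr k) (Sum.inr l) = 0)
    (hz : ∀ k, P (Sum.inr k) (Sum.inr k) = 0 → ∀ i, P (Sum.inl i) (Sum.inr k) = 0)
    (h0 : ∀ k, 0 ≤ P (Sum.inr k) (Sum.inr k)) (h : Psd (schurK P)) : Psd P := by
  refine ⟨hs, fun x => ?_⟩
  rw [qf_split P hs hK hz]
  exact add_nonneg (h.2 _) (Finset.sum_nonneg fun k _ => mul_nonneg (h0 k) (sq_nonneg _))

theorem psd_schurK {P : W ⊕ K → W ⊕ K → ℝ} (hP : Psd P)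
    (hK : ∀ k l, k ≠ l → P (Sum.inr k) (Sum.inr l) = 0) : Psd (schurK P) := by
  have hz : ∀ k, P (Sum.inr k) (Sum.inr k) = 0 → ∀ i, P (Sum.inl i) (Sum.inr k) = 0 := by
    intro k h0 i
    have := hP.minor (Sum.inl i) (Sum.inr k)
    rw [h0, mul_zero] at this
    exact pow_eq_zero_iff (two_ne_zero) |>.1 (le_antisymm this (sq_nonneg _))
  refine ⟨fun i j => ?_, fun y => ?_⟩
  · simp only [schurK]
    rw [hP.1 (Sum.inl i) (Sum.inl j)]
    congr 1
    refine Finset.sum_congr rfl fun k _ => ?_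
    rw [mul_comm]
  · have := hP.2 (Sum.elim y fun k => -((∑ i, y i * P (Sum.inl i) (Sum.inr k)) /
      P (Sum.inr k) (Sum.inr k)))
    rw [qf_split P hP.1 hK hz] at this
    simpa using this

/-- **Adding an independent set.** -/
theorem indep_pow {A : W ⊕ K → W ⊕ K → ℝ} (hP : Psd A) (h0 : ∀ i j, 0 ≤ A i j)
    (hK : ∀ k l, k ≠ l → A (Sum.inr k) (Sum.inr l) = 0) {β : ℝ}
    (hW : Psd (hpow (fun i j => A (Sum.inl i) (Sum.inl j)) (β - 1)))
    (hk : ∀ k, Psd (hpow (fun i j => A (withK k i) (withK k j)) (β - 1))) :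
    Psd (hpow A β) := by
  have hz : ∀ k, A (Sum.inr k) (Sum.inr k) = 0 → ∀ i, A (Sum.inl i) (Sum.inr k) = 0 := by
    intro k h0 i
    have := hP.minor (Sum.inl i) (Sum.inr k)
    rw [h0, mul_zero] at this
    exact pow_eq_zero_iff (two_ne_zero) |>.1 (le_antisymm this (sq_nonneg _))
  refine psd_of_schurK (fun i j => ?_) (fun k l hkl => ?_) (fun k hk0 i => ?_) (fun k => ?_) ?_
  · simp only [hpow]
    rw [hP.1 i j]
  · simp only [hpow]
    rw [hK k l hkl, pw_zero]
  · simp only [hpow] at hk0 ⊢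
    have h1 : A (Sum.inr k) (Sum.inr k) = 0 := by
      by_contra hne
      exact (pw_pos (lt_of_le_of_ne (h0 _ _) (Ne.symm hne))).ne' hk0
    rw [hz k h1 i, pw_zero]
  · exact pw_nonneg (h0 _ _)
  · -- the identity
    have e : schurK (hpow A β) = fun i j => schurK A i j *
        hpow (fun i j => A (Sum.inl i) (Sum.inl j)) (β - 1) i j +
        ∑ k, (A (Sum.inl i) (Sum.inr k) * A (Sum.inl j) (Sum.inr k) /
          A (Sum.inr k) (Sum.inr k)) *
          schur (hpow (fun i j => A (withK k i) (withK k j)) (β - 1)) i j := by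
      funext i j
      simp only [schurK, schur, hpow, withK, Option.elim_some, Option.elim_none]
      rw [pw_add_one (h0 (Sum.inl i) (Sum.inl j))]
      have e1 : ∀ k, pw β (A (Sum.inl i) (Sum.inr k)) * pw β (A (Sum.inl j) (Sum.inr k)) /
          pw β (A (Sum.inr k) (Sum.inr k)) = (A (Sum.inl i) (Sum.inr k) *
          A (Sum.inl j) (Sum.inr k) / A (Sum.inr k) (Sum.inr k)) *
          (pw (β - 1) (A (Sum.inl i) (Sum.inr k)) * pw (β - 1) (A (Sum.inl j) (Sum.inr k)) /
            pw (β - 1) (A (Sum.inr k) (Sum.inr k))) := by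
        intro k
        rw [pw_add_one (h0 (Sum.inl i) (Sum.inr k)), pw_add_one (h0 (Sum.inl j) (Sum.inr k)),
          pw_add_one (h0 (Sum.inr k) (Sum.inr k)), div_mul_div_comm]
        congr 1 <;> ring
      simp only [e1, mul_sub, Finset.sum_sub_distrib]
      rw [← Finset.sum_mul]
      ring
    rw [e]
    refine ((psd_schurK hP hK).hadamard hW).add (psd_sum Finset.univ (fun k i j =>
      (A (Sum.inl i) (Sum.inr k) * A (Sum.inl j) (Sum.inr k) / A (Sum.inr k) (Sum.inr k)) *
          schur (hpow (fun i j => A (withK k i) (withK k j)) (β - 1)) i j) fun k _ => ?_)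
    rcases (h0 (Sum.inr k) (Sum.inr k)).eq_or_lt with hk0 | hk0
    · have e2 : (fun i j => (A (Sum.inl i) (Sum.inr k) * A (Sum.inl j) (Sum.inr k) /
          A (Sum.inr k) (Sum.inr k)) *
          schur (hpow (fun i j => A (withK k i) (withK k j)) (β - 1)) i j) =
          fun _ _ : W => (0 : ℝ) := by
        funext i j
        rw [← hk0, div_zero, zero_mul]
      rw [e2]
      exact psd_zero
    · have h1 : Psd fun i j : W => A (Sum.inl i) (Sum.inr k) * A (Sum.inl j) (Sum.inr k) /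
          A (Sum.inr k) (Sum.inr k) := by
        have h2 := psd_rankOne (fun i : W => A (Sum.inl i) (Sum.inr k) /
          √(A (Sum.inr k) (Sum.inr k)))
        have e3 : (fun i j : W => A (Sum.inl i) (Sum.inr k) * A (Sum.inl j) (Sum.inr k) /
          A (Sum.inr k) (Sum.inr k)) = fun i j : W => (A (Sum.inl i) (Sum.inr k) /
          √(A (Sum.inr k) (Sum.inr k))) * (A (Sum.inl j) (Sum.inr k) /
          √(A (Sum.inr k) (Sum.inr k))) := by
          funext i j
          rw [div_mul_div_comm, Real.mul_self_sqrt hk0.le]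
        rw [e3]
        exact h2
      exact h1.hadamard (psd_schur (hk k) (pw_pos hk0))

/-- the join of `H` with the edgeless graph on `K` -/
def joinIndep {W : Type*} (H : SimpleGraph W) (K : Type*) : SimpleGraph (W ⊕ K) where
  Adj a b := (∃ i j, a = Sum.inl i ∧ b = Sum.inl j ∧ H.Adj i j) ∨
    (∃ i k, a = Sum.inl i ∧ b = Sum.inr k) ∨ ∃ i k, a = Sum.inr k ∧ b = Sum.inl i
  symm := ⟨by
    rintro a b (⟨i, j, ha, hb, h⟩ | ⟨i, k, ha, hb⟩ | ⟨i, k, ha, hb⟩)
    · exact Or.inl ⟨j, i, hb, ha, h.symm⟩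
    · exact Or.inr (Or.inr ⟨i, k, hb, ha⟩)
    · exact Or.inr (Or.inl ⟨i, k, hb, ha⟩)⟩
  loopless := ⟨by
    rintro a (⟨i, j, ha, hb, h⟩ | ⟨i, k, ha, hb⟩ | ⟨i, k, ha, hb⟩)
    · rw [ha] at hb
      exact h.ne (Sum.inl.inj hb)
    · rw [ha] at hb; cases hb
    · rw [ha] at hb; cases hb⟩

theorem joinIndep_inl {W K : Type*} {H : SimpleGraph W} {i j : W} :
    (joinIndep H K).Adj (Sum.inl i) (Sum.inl j) ↔ H.Adj i j := by
  constructor
  · rintro (⟨a, b, ha, hb, h⟩ | ⟨a, k, ha, hb⟩ | ⟨a, k, ha, hb⟩)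
    · rw [Sum.inl.inj ha, Sum.inl.inj hb]; exact h
    · cases hb
    · cases ha
  · exact fun h => Or.inl ⟨i, j, rfl, rfl, h⟩

theorem joinIndep_lr {W K : Type*} {H : SimpleGraph W} {i : W} {k : K} :
    (joinIndep H K).Adj (Sum.inl i) (Sum.inr k) := Or.inr (Or.inl ⟨i, k, rfl, rfl⟩)

theorem joinIndep_inr {W K : Type*} {H : SimpleGraph W} {k l : K} :
    ¬ (joinIndep H K).Adj (Sum.inr k) (Sum.inr l) := by
  rintro (⟨a, b, ha, hb, h⟩ | ⟨a, k, ha, hb⟩ | ⟨a, k, ha, hb⟩)
  · cases ha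
  · cases ha
  · cases hb

/-- a power which preserves positivity on the cone over `H`: the next one does so on the join of
`H` and an independent set -/
theorem joinIndep_pow {H : SimpleGraph W} {β : ℝ}
    (h : ∀ A, InPG (cone H) A → Psd (hpow A (β - 1))) {A : W ⊕ K → W ⊕ K → ℝ}
    (hA : InPG (joinIndep H K) A) : Psd (hpow A β) := by
  have hblock : InPG H fun i j => A (Sum.inl i) (Sum.inl j) :=
    ⟨hA.1.submatrix Sum.inl, fun _ _ => hA.2.1 _ _, fun _ _ hij hn =>
      hA.2.2 _ _ (fun e => hij (Sum.inl.inj e)) fun e => hn (joinIndep_inl.1 e)⟩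
  refine indep_pow hA.1 hA.2.1 (fun k l hkl => hA.2.2 _ _ (fun e => hkl (Sum.inr.inj e))
    joinIndep_inr) ?_ fun k => ?_
  · exact pow_of_embed (f := (some : W → Option W)) (Option.some_injective W)
      (fun a b hab => cone_adj_some.2 hab) h hblock
  · refine h _ ⟨hA.1.submatrix (withK k), fun _ _ => hA.2.1 _ _, ?_⟩
    rintro (_ | i) (_ | j) hij hn
    · exact absurd rfl hij
    · exact absurd cone_adj_none hn
    · exact absurd cone_adj_none.symm hn
    · refine hA.2.2 _ _ (fun e => hij ?_) fun e => hn (cone_adj_some.2 (joinIndep_inl.1 e))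
      rw [Sum.inl.inj (show (Sum.inl i : W ⊕ K) = Sum.inl j from e)]

/-- one vertex set and an independent set -/
theorem step_indep {V : Type*} {G : SimpleGraph V} {S I : Set V} [Fintype ↥S] [Fintype ↥I]
    [Fintype ↥(S ∪ I)] (hI : ∀ a ∈ I, ∀ b ∈ I, ¬ G.Adj a b) (m : ℕ) {β : ℝ}
    (h : ∀ A, InPG (join (m + 1) (G.induce S)) A → Psd (hpow A (β - 1))) :
    ∀ A, InPG (join m (G.induce (S ∪ I))) A → Psd (hpow A β) := by
  classical
  have hc : ∀ A, InPG (cone (join m (G.induce S))) A → Psd (hpow A (β - 1)) := by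
    intro A hA
    have h1 := h _ (InPG.iso (joinIso m (G.induce S)).symm hA)
    have h2 := h1.submatrix (joinIso m (G.induce S))
    have e : (fun i j => hpow (fun a b => A ((joinIso m (G.induce S)).symm a)
        ((joinIso m (G.induce S)).symm b)) (β - 1) ((joinIso m (G.induce S)) i)
        ((joinIso m (G.induce S)) j)) = hpow A (β - 1) := by
      funext i j
      simp only [hpow, RelIso.symm_apply_apply]
    rwa [e] at h2
  intro A hA
  let f : Fin m ⊕ ↥(S ∪ I) → (Fin m ⊕ ↥S) ⊕ ↥I := Sum.elim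
    (fun i : Fin m => (Sum.inl (Sum.inl i) : (Fin m ⊕ ↥S) ⊕ ↥I))
    (fun v : ↥(S ∪ I) => if hv : (v : V) ∈ S then (Sum.inl (Sum.inr ⟨v, hv⟩) :
      (Fin m ⊕ ↥S) ⊕ ↥I) else Sum.inr ⟨v, v.2.resolve_left hv⟩)
  have hf : Function.Injective f := by
    rintro (i | v) (j | w) hvw
    · simpa [f] using hvw
    · by_cases hw : (w : V) ∈ S
      · simp [f, hw] at hvw
      · simp [f, hw] at hvw
    · by_cases hv : (v : V) ∈ S
      · simp [f, hv] at hvw
      · simp [f, hv] at hvw
    · by_cases hv : (v : V) ∈ S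
      · by_cases hw : (w : V) ∈ S
        · simp only [f, Sum.elim_inr, dif_pos hv, dif_pos hw, Sum.inl.injEq, Sum.inr.injEq,
            Subtype.mk.injEq] at hvw
          rw [Subtype.ext hvw]
        · simp [f, hv, hw] at hvw
      · by_cases hw : (w : V) ∈ S
        · simp [f, hv, hw] at hvw
        · simp only [f, Sum.elim_inr, dif_neg hv, dif_neg hw, Sum.inr.injEq,
            Subtype.mk.injEq] at hvw
          rw [Subtype.ext hvw]
  have hfa : ∀ a b, (join m (G.induce (S ∪ I))).Adj a b →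
      (joinIndep (join m (G.induce S)) ↥I).Adj (f a) (f b) := by
    rintro (i | v) (j | w) hab
    · refine joinIndep_inl.2 (join_adj_inl.2 fun e => hab.ne ?_)
      rw [Sum.inl.inj e]
    · by_cases hw : (w : V) ∈ S
      · simp only [f, Sum.elim_inl, Sum.elim_inr, dif_pos hw]
        exact joinIndep_inl.2 (join_adj_inl.2 (by simp))
      · simp only [f, Sum.elim_inl, Sum.elim_inr, dif_neg hw]
        exact joinIndep_lr
    · by_cases hv : (v : V) ∈ S
      · simp only [f, Sum.elim_inl, Sum.elim_inr, dif_pos hv]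
        exact joinIndep_inl.2 (join_adj_inl.2 (by simp)).symm
      · simp only [f, Sum.elim_inl, Sum.elim_inr, dif_neg hv]
        exact joinIndep_lr.symm
    · have hvw : G.Adj v w := (join_adj_inr (B := G.induce (S ∪ I))).1 hab
      by_cases hv : (v : V) ∈ S
      · by_cases hw : (w : V) ∈ S
        · simp only [f, Sum.elim_inr, dif_pos hv, dif_pos hw]
          exact joinIndep_inl.2 (join_adj_inr.2 hvw)
        · simp only [f, Sum.elim_inr, dif_pos hv, dif_neg hw]
          exact joinIndep_lr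
      · by_cases hw : (w : V) ∈ S
        · simp only [f, Sum.elim_inr, dif_neg hv, dif_pos hw]
          exact joinIndep_lr.symm
        · exact absurd hvw (hI v (v.2.resolve_left hv) w (w.2.resolve_left hw))
  exact pow_of_embed hf hfa (fun B hB => joinIndep_pow hc hB) hA

/-- joins with complete graphs keep the invariant -/
theorem exists_inv_join {U W : Type u} [Fintype U] [Fintype W] {G : SimpleGraph U}
    {H : SimpleGraph W} {f : U → W} (hf : Function.Injective f)
    (hfa : ∀ a b, G.Adj a b → H.Adj (f a) (f b)) {k : ℕ} (hH : Inv H k) (m : ℕ) :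
    ∃ (W' : Type u) (_ : Fintype W') (H' : SimpleGraph W') (g : Fin m ⊕ U → W'),
      Function.Injective g ∧ (∀ a b, (join m G).Adj a b → H'.Adj (g a) (g b)) ∧ Inv H' (k + m) := by
  induction m with
  | zero =>
    refine ⟨W, inferInstance, H, fun a => a.elim (fun i => i.elim0) f, ?_, ?_, hH⟩
    · rintro (i | a) (j | b) hab
      · exact i.elim0
      · exact i.elim0
      · exact j.elim0
      · rw [hf hab]
    · rintro (i | a) (j | b) hab
      · exact i.elim0
      · exact i.elim0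
      · exact j.elim0
      · exact hfa _ _ (join_adj_inr.1 hab)
  | succ m ih =>
    obtain ⟨W', _, H', g, hg, hga, hI⟩ := ih
    refine ⟨Option W', inferInstance, cone H', fun a => Option.map g ((joinIso m G).symm a), ?_, ?_,
      hI.cone⟩
    · intro a b hab
      exact (joinIso m G).symm.injective (Option.map_injective hg hab)
    · intro a b hab
      exact cone_map hg hga _ _ ((joinIso m G).symm.map_adj_iff.2 hab)

end indep

end Pool.Agent.Helper88.CE
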