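import Pool.Agent.Helper88.CE.Cone
import Pool.Agent.Helper71.CE.Lower
import Pool.Agent.Helper71.CE.Main

/-!
# The cone over a graph as a join
-/

open Finset Pool.Agent.Helper71.CE

namespace Pool.Agent.Helper88.CE

/-- the vertices of the cone and of the join with one vertex -/
def coneEquiv (V : Type*) : Option V ≃ Fin 1 ⊕ V where
  toFun a := match a with
    | none => Sum.inl 0
    | some v => Sum.inr v
  invFun b := match b with
    | Sum.inl _ => none
    | Sum.inr v => some v
  left_inv a := by rcases a with _ | v <;> rfl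
  right_inv b := by
    rcases b with i | v
    · have : i = 0 := Subsingleton.elim _ _
      subst this; rfl
    · rfl

/-- the cone over `G` is the join of `G` with one vertex -/
def coneIso {V : Type*} (G : SimpleGraph V) : cone G ≃g join 1 G where
  toEquiv := coneEquiv V
  map_rel_iff' := by
    rintro (_ | a) (_ | b)
    · constructor
      · intro h; exact absurd rfl h.1
      · intro h; exact absurd rfl h.1
    · constructor
      · intro _; exact cone_adj_none
      · intro _; exact join_adj_inl.2 (by show Sum.inl 0 ≠ Sum.inr b; simp)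
    · constructor
      · intro _; exact cone_adj_none.symm
      · intro _; exact (join_adj_inl.2 (by show Sum.inl 0 ≠ Sum.inr a; simp)).symm
    · rw [cone_adj_some]; exact join_adj_inr

/-- `G` is the join of `G` with no vertex -/
def zeroIso {V : Type*} (G : SimpleGraph V) : G ≃g join 0 G where
  toEquiv := (Equiv.emptySum (Fin 0) V).symm
  map_rel_iff' := by
    intro a b
    exact join_adj_inr

variable {V : Type*} [Fintype V]

theorem hpow_iso {W : Type*} [Fintype W] (e : V ≃ W) (A : W → W → ℝ) (β : ℝ)
    (h : Psd (hpow (fun i j => A (e i) (e j)) β)) : Psd (hpow A β) := by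
  have h1 := h.submatrix (W := W) e.symm
  have e1 : (fun i j : W => hpow (fun i j => A (e i) (e j)) β (e.symm i) (e.symm j)) =
      hpow A β := by
    funext i j
    simp [hpow]
  rw [e1] at h1
  exact h1

/-- exponents in `(1,2)` fail on a cone over a path -/
theorem cone_fail {G : SimpleGraph V} {x y v : V} (hxy : x ≠ y) (hx : G.Adj x v)
    (hy : G.Adj y v) {β : ℝ} (h1 : 1 < β) (h2 : β < 2) :
    ∃ A, InPG (cone G) A ∧ ¬ Psd (hpow A β) := by
  obtain ⟨A, hA, hn⟩ := join_fail 1 hxy hx hy (β := β) (by push_cast; linarith)
    (by push_cast; linarith)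
  refine ⟨_, hA.iso (coneIso G), fun h => hn (hpow_iso (coneIso G).toEquiv A β h)⟩

/-- exponents in `(0,1)` fail on a path -/
theorem path_fail {G : SimpleGraph V} {x y v : V} (hxy : x ≠ y) (hx : G.Adj x v)
    (hy : G.Adj y v) {β : ℝ} (h1 : 0 < β) (h2 : β < 1) :
    ∃ A, InPG G A ∧ ¬ Psd (hpow A β) := by
  obtain ⟨A, hA, hn⟩ := join_fail 0 hxy hx hy (β := β) (by push_cast; linarith)
    (by push_cast; linarith)
  refine ⟨_, hA.iso (zeroIso G), fun h => hn (hpow_iso (zeroIso G).toEquiv A β h)⟩

end Pool.Agent.Helper88.CE
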