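import Pool.Agent.Helper88.CE.Indep

/-!
# Mixed powers `A^m ∘ Q^ν`, `Q` a full positive semidefinite matrix, and cones
-/

open Finset Pool.Agent.Helper71.CE

namespace Pool.Agent.Helper88.CE

section mix

variable {V W : Type*} [Fintype V] [Fintype W]

/-- `A^m ∘ Q^ν` is positive semidefinite for all `A` with pattern `G` and all positive semidefinite
`Q` with nonnegative entries (and any pattern) -/
def Mix (G : SimpleGraph V) (m ν : ℝ) : Prop :=
  ∀ A Q : V → V → ℝ, InPG G A → Psd Q → (∀ i j, 0 ≤ Q i j) →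
    Psd (fun i j => pw m (A i j) * pw ν (Q i j))

theorem pw_add {m ν a : ℝ} (ha : 0 ≤ a) : pw m a * pw ν a = pw (m + ν) a := by
  rcases ha.eq_or_lt with h | h
  · rw [← h, pw_zero, pw_zero, pw_zero, mul_zero]
  · rw [pw_of_pos h, pw_of_pos h, pw_of_pos h, Real.rpow_add h]

/-- the exponents from the critical exponent of `G` -/
theorem Mix.base {G : SimpleGraph V} {α : ℝ}
    (h : ∀ A : V → V → ℝ, InPG G A → ∀ β : ℝ, α ≤ β → Psd (hpow A β)) {m ν : ℝ} (h1 : α ≤ ν)
    (h2 : α ≤ m - ν) : Mix G m ν := by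
  intro A Q hA hQ hQ0
  have hAQ : InPG G (fun i j => A i j * Q i j) :=
    ⟨hA.1.hadamard hQ, fun i j => mul_nonneg (hA.2.1 i j) (hQ0 i j), fun i j hij hG => by
      show A i j * Q i j = 0
      rw [hA.2.2 i j hij hG, zero_mul]⟩
  have h3 := (h A hA (m - ν) h2).hadamard (h _ hAQ ν h1)
  have e : (fun i j => pw m (A i j) * pw ν (Q i j)) =
      fun i j => hpow A (m - ν) i j * hpow (fun i j => A i j * Q i j) ν i j := by
    funext i j
    simp only [hpow]
    rw [pw_mul (hA.2.1 i j) (hQ0 i j), ← mul_assoc, pw_add (hA.2.1 i j), sub_add_cancel]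
  rw [e]
  exact h3

theorem Mix.succ {G : SimpleGraph V} {m ν : ℝ} (h : Mix G m ν) : Mix G m (ν + 1) := by
  intro A Q hA hQ hQ0
  have h1 := (h A Q hA hQ hQ0).hadamard hQ
  have e : (fun i j => pw m (A i j) * pw (ν + 1) (Q i j)) =
      fun i j => pw m (A i j) * pw ν (Q i j) * Q i j := by
    funext i j
    rw [pw_add_one (β := ν + 1) (hQ0 i j), add_sub_cancel_right, mul_assoc]
  rw [e]
  exact h1

/-- the path from `q qᵀ` to `Q` -/
theorem Mix.sub {G : SimpleGraph V} {m ν : ℝ} (hν : 0 ≤ ν) (h : Mix G m ν) {A Q : V → V → ℝ}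
    {q : V → ℝ} (hA : InPG G A) (hQ0 : ∀ i j, 0 ≤ Q i j) (hq0 : ∀ i, 0 ≤ q i)
    (hQq : Psd (fun i j => Q i j - q i * q j)) :
    Psd (fun i j => pw m (A i j) *
      (pw (ν + 1) (Q i j) - pw (ν + 1) (q i) * pw (ν + 1) (q j))) := by
  have hsQ : ∀ i j, Q i j = Q j i := fun i j => by
    have : Q i j - q i * q j = Q j i - q j * q i := hQq.1 i j
    linarith [mul_comm (q i) (q j)]
  refine ⟨fun i j => by
    show pw m (A i j) * (pw (ν + 1) (Q i j) - pw (ν + 1) (q i) * pw (ν + 1) (q j)) =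
      pw m (A j i) * (pw (ν + 1) (Q j i) - pw (ν + 1) (q j) * pw (ν + 1) (q i))
    rw [hsQ i j, hA.1.1 i j, mul_comm (pw (ν + 1) (q i))], fun x => ?_⟩
  set φ : ℝ → ℝ := fun l => ∑ i, ∑ j, x i * (pw m (A i j) *
    pw (ν + 1) ((1 - l) * (q i * q j) + l * Q i j)) * x j with hφ
  have hφ1 : φ 1 = ∑ i, ∑ j, x i * (pw m (A i j) * pw (ν + 1) (Q i j)) * x j := by simp [hφ]
  have hφ0 : φ 0 = ∑ i, ∑ j, x i * (pw m (A i j) * (pw (ν + 1) (q i) * pw (ν + 1) (q j))) *
      x j := by
    simp only [hφ]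
    refine Finset.sum_congr rfl fun i _ => Finset.sum_congr rfl fun j _ => ?_
    rw [← pw_mul (hq0 i) (hq0 j)]
    simp
  have hcont : ContinuousOn φ (Set.Icc 0 1) := by
    refine continuousOn_finsetSum _ fun i _ => continuousOn_finsetSum _ fun j _ => ?_
    refine ContinuousOn.mul (ContinuousOn.mul continuousOn_const
      (ContinuousOn.mul continuousOn_const ?_)) continuousOn_const
    refine (pw_continuousOn (by linarith : (0 : ℝ) < ν + 1)).comp (by fun_prop) ?_
    intro t ht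
    exact add_nonneg (mul_nonneg (sub_nonneg.2 ht.2) (mul_nonneg (hq0 i) (hq0 j)))
      (mul_nonneg ht.1 (hQ0 i j))
  have hder : ∀ l ∈ Set.Ioo (0 : ℝ) 1, HasDerivAt φ
      ((ν + 1) * ∑ i, ∑ j, x i * ((Q i j - q i * q j) * (pw m (A i j) *
        pw ν ((1 - l) * (q i * q j) + l * Q i j))) * x j) l := by
    intro l hl
    rw [Finset.mul_sum]
    refine HasDerivAt.fun_sum fun i _ => ?_
    rw [Finset.mul_sum]
    refine HasDerivAt.fun_sum fun j _ => ?_
    have := (hasDerivAt_pw (β := ν + 1) (mul_nonneg (hq0 i) (hq0 j)) (hQ0 i j) hl.1 hl.2)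
    rw [add_sub_cancel_right] at this
    exact (((this.const_mul (pw m (A i j))).const_mul (x i)).mul_const (x j)).congr_deriv
      (by ring)
  have hmono : MonotoneOn φ (Set.Icc 0 1) := by
    refine monotoneOn_of_deriv_nonneg (convex_Icc 0 1) hcont ?_ ?_
    · rw [interior_Icc]
      intro l hl
      exact (hder l hl).differentiableAt.differentiableWithinAt
    · rw [interior_Icc]
      intro l hl
      rw [(hder l hl).deriv]
      refine mul_nonneg (by linarith) ?_
      have hpath : Psd (fun i j => (1 - l) * (q i * q j) + l * Q i j) := by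
        have h1 := psd_rankOne q
        have e : (fun i j => (1 - l) * (q i * q j) + l * Q i j) =
            (fun i j => q i * q j + l * (Q i j - q i * q j)) := by
          funext i j; ring
        rw [e]
        refine h1.add ⟨fun i j => ?_, fun y => ?_⟩
        · show l * (Q i j - q i * q j) = l * (Q j i - q j * q i)
          rw [hsQ i j, mul_comm (q i)]
        · have := hQq.2 y
          have e2 : qf (fun i j => l * (Q i j - q i * q j)) y =
              l * qf (fun i j => Q i j - q i * q j) y := by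
            simp only [qf, Finset.mul_sum]
            refine Finset.sum_congr rfl fun i _ => Finset.sum_congr rfl fun j _ => by ring
          rw [e2]
          exact mul_nonneg hl.1.le this
      have hpos : ∀ i j, 0 ≤ (1 - l) * (q i * q j) + l * Q i j := fun i j =>
        add_nonneg (mul_nonneg (sub_nonneg.2 hl.2.le) (mul_nonneg (hq0 i) (hq0 j)))
          (mul_nonneg hl.1.le (hQ0 i j))
      exact (hQq.hadamard (h A _ hA hpath hpos)).2 x
  have hle := hmono (Set.left_mem_Icc.2 zero_le_one) (Set.right_mem_Icc.2 zero_le_one) zero_le_one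
  have : qf (fun i j => pw m (A i j) *
      (pw (ν + 1) (Q i j) - pw (ν + 1) (q i) * pw (ν + 1) (q j))) x = φ 1 - φ 0 := by
    rw [hφ1, hφ0]
    simp only [qf, ← Finset.sum_sub_distrib]
    refine Finset.sum_congr rfl fun i _ => Finset.sum_congr rfl fun j _ => by ring
  rw [this]
  linarith

/-- integer powers: `A^m ≥ (a aᵀ)^m` if `A ≥ a aᵀ` -/
theorem nat_sub {A : V → V → ℝ} {a : V → ℝ} (hA : Psd A) (hA0 : ∀ i j, 0 ≤ A i j)
    (ha : ∀ i, 0 ≤ a i) (h : Psd (fun i j => A i j - a i * a j)) (m : ℕ) :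
    Psd (fun i j => pw ((m : ℝ) + 1) (A i j) * 1) ∧
    Psd (fun i j => pw ((m : ℝ) + 1) (A i j) -
      pw ((m : ℝ) + 1) (a i) * pw ((m : ℝ) + 1) (a j)) := by
  induction m with
  | zero =>
    have e : ∀ x : ℝ, 0 ≤ x → pw (((0 : ℕ) : ℝ) + 1) x = x := by
      intro x hx
      rcases hx.eq_or_lt with h0 | h0
      · rw [← h0, pw_zero]
      · rw [pw_of_pos h0]; simp
    constructor
    · have e1 : (fun i j => pw (((0 : ℕ) : ℝ) + 1) (A i j) * 1) = A := by
        funext i j; rw [e _ (hA0 i j), mul_one]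
      rw [e1]; exact hA
    · have e1 : (fun i j => pw (((0 : ℕ) : ℝ) + 1) (A i j) -
          pw (((0 : ℕ) : ℝ) + 1) (a i) * pw (((0 : ℕ) : ℝ) + 1) (a j)) =
          fun i j => A i j - a i * a j := by
        funext i j; rw [e _ (hA0 i j), e _ (ha i), e _ (ha j)]
      rw [e1]; exact h
  | succ m ih =>
    have e : ∀ x : ℝ, 0 ≤ x → pw (((m + 1 : ℕ) : ℝ) + 1) x = pw ((m : ℝ) + 1) x * x := by
      intro x hx
      rw [pw_add_one (β := ((m + 1 : ℕ) : ℝ) + 1) hx]
      congr 2
      push_cast; ring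
    constructor
    · have h1 := ih.1.hadamard hA
      have e1 : (fun i j => pw (((m + 1 : ℕ) : ℝ) + 1) (A i j) * 1) =
          fun i j => pw ((m : ℝ) + 1) (A i j) * 1 * A i j := by
        funext i j; rw [e _ (hA0 i j), mul_one, mul_one]
      rw [e1]; exact h1
    · have h1 := (ih.2.hadamard hA).add ((psd_rankOne fun i => pw ((m : ℝ) + 1) (a i)).hadamard h)
      have e1 : (fun i j => pw (((m + 1 : ℕ) : ℝ) + 1) (A i j) -
          pw (((m + 1 : ℕ) : ℝ) + 1) (a i) * pw (((m + 1 : ℕ) : ℝ) + 1) (a j)) =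
          fun i j => (pw ((m : ℝ) + 1) (A i j) - pw ((m : ℝ) + 1) (a i) *
            pw ((m : ℝ) + 1) (a j)) * A i j +
            pw ((m : ℝ) + 1) (a i) * pw ((m : ℝ) + 1) (a j) * (A i j - a i * a j) := by
        funext i j; rw [e _ (hA0 i j), e _ (ha i), e _ (ha j)]; ring
      rw [e1]; exact h1

/-- **One dominating vertex costs one in the second exponent.** -/
theorem Mix.cone {G : SimpleGraph V} {m : ℕ} {ν : ℝ} (hν : 0 ≤ ν) (h : Mix G ((m : ℝ) + 1) ν) :
    Mix (cone G) ((m : ℝ) + 1) (ν + 1) := by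
  intro A Q hA hQ hQ0
  obtain ⟨μ, hμ⟩ : ∃ μ : ℝ, μ = (m : ℝ) + 1 := ⟨_, rfl⟩
  rw [← hμ] at h ⊢
  have hs : ∀ i j : Option V, pw μ (A i j) * pw (ν + 1) (Q i j) =
      pw μ (A j i) * pw (ν + 1) (Q j i) := fun i j => by rw [hA.1.1 i j, hQ.1 i j]
  have hb := h.succ _ _ hA.block (hQ.submatrix some) (fun i j => hQ0 _ _)
  rcases (hA.2.1 none none).eq_or_lt with h0 | h0
  · refine psd_of_none_zero hs (by rw [← h0, pw_zero, zero_mul])
      (fun i => by rw [hA.1.none_zero h0.symm i, pw_zero, zero_mul]) hb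
  rcases (hQ0 none none).eq_or_lt with h1 | h1
  · refine psd_of_none_zero hs (by rw [← h1, pw_zero, mul_zero])
      (fun i => by rw [hQ.none_zero h1.symm i, pw_zero, mul_zero]) hb
  refine psd_of_schur hs (mul_pos (pw_pos h0) (pw_pos h1)) ?_
  have hrA : 0 < √(A none none) := Real.sqrt_pos.2 h0
  have hrQ : 0 < √(Q none none) := Real.sqrt_pos.2 h1
  set a : V → ℝ := fun i => A (some i) none / √(A none none) with ha
  set q : V → ℝ := fun i => Q (some i) none / √(Q none none) with hq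
  have ha0 : ∀ i, 0 ≤ a i := fun i => div_nonneg (hA.2.1 _ _) hrA.le
  have hq0 : ∀ i, 0 ≤ q i := fun i => div_nonneg (hQ0 _ _) hrQ.le
  have haa : ∀ i j, a i * a j = A (some i) none * A (some j) none / A none none := by
    intro i j
    simp only [ha]
    rw [div_mul_div_comm, Real.mul_self_sqrt h0.le]
  have hqq : ∀ i j, q i * q j = Q (some i) none * Q (some j) none / Q none none := by
    intro i j
    simp only [hq]
    rw [div_mul_div_comm, Real.mul_self_sqrt h1.le]
  have hAa : Psd (fun i j => A (some i) (some j) - a i * a j) := by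
    have e : (fun i j => A (some i) (some j) - a i * a j) = schur A := by
      funext i j; simp only [schur]; rw [haa]
    rw [e]; exact psd_schur hA.1 h0
  have hQq : Psd (fun i j => Q (some i) (some j) - q i * q j) := by
    have e : (fun i j => Q (some i) (some j) - q i * q j) = schur Q := by
      funext i j; simp only [schur]; rw [hqq]
    rw [e]; exact psd_schur hQ h1
  have t1 := h.sub hν hA.block (fun i j => hQ0 (some i) (some j)) hq0 hQq
  have t2 := (nat_sub hA.block.1 hA.block.2.1 ha0 hAa m).2.hadamard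
    (psd_rankOne fun i => pw (ν + 1) (q i))
  rw [← hμ] at t2
  have e : schur (fun i j : Option V => pw μ (A i j) * pw (ν + 1) (Q i j)) = fun i j : V =>
      pw μ (A (some i) (some j)) * (pw (ν + 1) (Q (some i) (some j)) -
        pw (ν + 1) (q i) * pw (ν + 1) (q j)) +
      (pw μ (A (some i) (some j)) - pw μ (a i) * pw μ (a j)) *
        (pw (ν + 1) (q i) * pw (ν + 1) (q j)) := by
    funext i j
    simp only [schur]
    have e1 : pw μ (a i) * pw μ (a j) =
        pw μ (A (some i) none) * pw μ (A (some j) none) / pw μ (A none none) := by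
      rw [← pw_mul (ha0 i) (ha0 j), haa,
        pw_div (mul_nonneg (hA.2.1 _ _) (hA.2.1 _ _)) h0, pw_mul (hA.2.1 _ _) (hA.2.1 _ _)]
    have e2 : pw (ν + 1) (q i) * pw (ν + 1) (q j) =
        pw (ν + 1) (Q (some i) none) * pw (ν + 1) (Q (some j) none) /
          pw (ν + 1) (Q none none) := by
      rw [← pw_mul (hq0 i) (hq0 j), hqq, pw_div (mul_nonneg (hQ0 _ _) (hQ0 _ _)) h1,
        pw_mul (hQ0 _ _) (hQ0 _ _)]
    rw [e1, e2]
    have p1 := (pw_pos (β := μ) h0).ne'
    have p2 := (pw_pos (β := ν + 1) h1).ne'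
    field_simp
    ring
  rw [e]
  exact t1.add t2

theorem Mix.iso {G : SimpleGraph V} {H : SimpleGraph W} (e : G ≃g H) {m ν : ℝ} (h : Mix G m ν) :
    Mix H m ν := by
  intro A Q hA hQ hQ0
  have h1 := (h _ _ (hA.iso e) (hQ.submatrix e) (fun i j => hQ0 _ _)).submatrix (W := W) e.symm
  simpa using h1

/-- `n` dominating vertices -/
theorem Mix.join {G : SimpleGraph V} {m : ℕ} {ν : ℝ} (hν : 0 ≤ ν) (h : Mix G ((m : ℝ) + 1) ν)
    (n : ℕ) : Mix (join n G) ((m : ℝ) + 1) (ν + n) := by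
  induction n with
  | zero =>
    have h1 : Mix (Pool.Agent.Helper71.CE.join 0 G) ((m : ℝ) + 1) ν := h.iso (joinZero V)
    simpa using h1
  | succ n ih =>
    have h1 := (Mix.cone (by positivity) ih).iso (joinIso n G)
    have e : ν + ((n + 1 : ℕ) : ℝ) = ν + n + 1 := by push_cast; ring
    rw [e]
    exact h1

/-- **Linear bound.**  If all powers at least `α ≥ 0` are good for `G`, then all powers at least
`α + ⌈2 α⌉ + n + 1` are good for `K_n ∨ G`. -/
theorem pow_join_linear {G : SimpleGraph V} {α : ℝ} (hα : 0 ≤ α)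
    (h : ∀ A : V → V → ℝ, InPG G A → ∀ β : ℝ, α ≤ β → Psd (hpow A β)) (n : ℕ) {β : ℝ}
    (hβ : α + ⌈2 * α⌉₊ + n + 1 ≤ β) {A : Fin n ⊕ V → Fin n ⊕ V → ℝ}
    (hA : InPG (join n G) A) : Psd (hpow A β) := by
  obtain ⟨δ, hδ⟩ : ∃ δ : ℝ, δ = β - n := ⟨_, rfl⟩
  obtain ⟨k, hk⟩ : ∃ k : ℕ, k = ⌊δ - α⌋₊ := ⟨_, rfl⟩
  have hδ1 : ((⌈2 * α⌉₊ + 1 : ℕ) : ℝ) ≤ δ - α := by push_cast; linarith
  have h1 : (k : ℝ) ≤ δ - α := by
    rw [hk]; exact Nat.floor_le (le_trans (Nat.cast_nonneg _) hδ1)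
  have h2 : δ - α < k + 1 := by rw [hk]; exact Nat.lt_floor_add_one _
  have hk1 : ⌈2 * α⌉₊ + 1 ≤ k := by rw [hk]; exact Nat.le_floor hδ1
  have h3 : 2 * α ≤ (⌈2 * α⌉₊ : ℝ) := Nat.le_ceil _
  obtain ⟨m, rfl⟩ : ∃ m, k = m + 1 := ⟨k - 1, by omega⟩
  have h4 : ((⌈2 * α⌉₊ : ℕ) : ℝ) ≤ m := by
    have : ⌈2 * α⌉₊ ≤ m := by omega
    exact_mod_cast this
  push_cast at h1 h2
  have hM : Mix G ((m : ℝ) + 1) (δ - (m + 1)) := Mix.base h (by linarith) (by linarith)
  have hMn := hM.join (by linarith) n A A hA hA.1 hA.2.1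
  have e : (fun i j => pw ((m : ℝ) + 1) (A i j) * pw (δ - (m + 1) + n) (A i j)) = hpow A β := by
    funext i j
    simp only [hpow]
    rw [pw_add (hA.2.1 i j)]
    congr 1
    rw [hδ]; ring
  rw [e] at hMn
  exact hMn

end mix

end Pool.Agent.Helper88.CE
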