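import Mathlib

/-!
# The star inequality
-/

open Finset

namespace Pool.Agent.Helper88.CE

variable {ι : Type*} [Fintype ι]

/-- inequality for two orthonormal vectors -/
theorem orthonormal_ineq (e n : Option ι → ℝ) (h1 : ∑ o, e o ^ 2 = 1)
    (h3 : ∑ o, e o * n o = 0) (hc : ∀ k : ι, e (some k) ^ 2 < 1) :
    0 ≤ n none ^ 2 + ∑ k : ι, n (some k) ^ 2 *
      ((1 - e none ^ 2 - 2 * e (some k) ^ 2) / (1 - e (some k) ^ 2)) := by
  classical
  by_cases hall : ∀ k : ι, 2 * e (some k) ^ 2 ≤ 1 - e none ^ 2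
  · refine add_nonneg (sq_nonneg _) (Finset.sum_nonneg fun k _ => ?_)
    refine mul_nonneg (sq_nonneg _) (div_nonneg ?_ ?_)
    · have := hall k; linarith
    · have := hc k; linarith
  push Not at hall
  obtain ⟨k1, hk1⟩ := hall
  rw [Fintype.sum_option] at h1 h3
  set R : Finset ι := univ.erase k1 with hR
  have hs1 : ∑ k, e (some k) ^ 2 = e (some k1) ^ 2 + ∑ k ∈ R, e (some k) ^ 2 :=
    (Finset.add_sum_erase _ _ (mem_univ k1)).symm
  have hs3 : ∑ k, e (some k) * n (some k) = e (some k1) * n (some k1) +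
      ∑ k ∈ R, e (some k) * n (some k) := (Finset.add_sum_erase _ _ (mem_univ k1)).symm
  rw [hs1] at h1
  rw [hs3] at h3
  set d : ℝ := 2 * e (some k1) ^ 2 - (1 - e none ^ 2) with hd
  have hd0 : 0 < d := by rw [hd]; linarith
  set r : ℝ := ∑ k ∈ R, e (some k) ^ 2 with hr
  have hr0 : 0 ≤ r := Finset.sum_nonneg fun k _ => sq_nonneg _
  have hkr : ∀ k ∈ R, e (some k) ^ 2 ≤ r := fun k hk =>
    Finset.single_le_sum (f := fun k => e (some k) ^ 2) (fun k _ => sq_nonneg _) hk
  have hk1c := hc k1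
  -- positivity of the numbers `β_k` away from `k1`
  have hnum : ∀ k ∈ R, 0 < 1 - e none ^ 2 - 2 * e (some k) ^ 2 := by
    intro k hk
    have := hkr k hk
    linarith
  set β : ι → ℝ := fun k => (1 - e none ^ 2 - 2 * e (some k) ^ 2) / (1 - e (some k) ^ 2) with hβ
  have hβ0 : ∀ k ∈ R, 0 < β k := by
    intro k hk
    have := hc k
    exact div_pos (hnum k hk) (by linarith)
  -- Cauchy-Schwarz
  set S : ℝ := e none ^ 2 + ∑ k ∈ R, e (some k) ^ 2 / β k with hS
  set T : ℝ := n none ^ 2 + ∑ k ∈ R, n (some k) ^ 2 * β k with hT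
  have hT0 : 0 ≤ ∑ k ∈ R, n (some k) ^ 2 * β k :=
    Finset.sum_nonneg fun k hk => mul_nonneg (sq_nonneg _) (hβ0 k hk).le
  have hS0 : 0 ≤ ∑ k ∈ R, e (some k) ^ 2 / β k :=
    Finset.sum_nonneg fun k hk => div_nonneg (sq_nonneg _) (hβ0 k hk).le
  have hCS1 : (∑ k ∈ R, e (some k) * n (some k)) ^ 2 ≤
      (∑ k ∈ R, n (some k) ^ 2 * β k) * (∑ k ∈ R, e (some k) ^ 2 / β k) := by
    refine Finset.sum_sq_le_sum_mul_sum_of_sq_le_mul R
      (fun k hk => mul_nonneg (sq_nonneg _) (hβ0 k hk).le)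
      (fun k hk => div_nonneg (sq_nonneg _) (hβ0 k hk).le) fun k hk => le_of_eq ?_
    have := (hβ0 k hk).ne'
    field_simp
  have hCS : (e (some k1) * n (some k1)) ^ 2 ≤ T * S := by
    have e1 : e (some k1) * n (some k1) = -(e none * n none + ∑ k ∈ R, e (some k) * n (some k)) := by
      linarith
    rw [e1, neg_sq, hT, hS]
    generalize (∑ k ∈ R, e (some k) * n (some k)) = X at *
    generalize (∑ k ∈ R, n (some k) ^ 2 * β k) = T' at *
    generalize (∑ k ∈ R, e (some k) ^ 2 / β k) = S' at *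
    -- `2 e n X ≤ n² S' + e² T'`
    have key : 2 * (e none * n none * X) ≤ n none ^ 2 * S' + e none ^ 2 * T' := by
      have h4 : (2 * (e none * n none * X)) ^ 2 ≤ (n none ^ 2 * S' + e none ^ 2 * T') ^ 2 := by
        have : (e none * n none * X) ^ 2 ≤ (e none * n none) ^ 2 * (T' * S') := by
          rw [mul_pow]; exact mul_le_mul_of_nonneg_left hCS1 (sq_nonneg _)
        nlinarith [sq_nonneg (n none ^ 2 * S' - e none ^ 2 * T')]
      exact abs_le_of_sq_le_sq' h4 (by positivity) |>.2
    nlinarith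
  -- bound of `S`
  have hSb : S * d ≤ e (some k1) ^ 2 * (1 - e (some k1) ^ 2) := by
    have h4 : ∑ k ∈ R, e (some k) ^ 2 / β k ≤ ∑ k ∈ R, e (some k) ^ 2 * ((1 - r) / d) := by
      refine Finset.sum_le_sum fun k hk => ?_
      rw [div_eq_mul_inv]
      refine mul_le_mul_of_nonneg_left ?_ (sq_nonneg _)
      have h5 := hnum k hk
      have h6 := hkr k hk
      have h7 := hc k
      rw [hβ]
      simp only [inv_div]
      rw [div_le_div_iff₀ h5 hd0]
      have h8 : 0 ≤ (r - e (some k) ^ 2) * (2 - (1 - e none ^ 2)) :=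
        mul_nonneg (by linarith) (by nlinarith [sq_nonneg (e none)])
      have h9 : e (some k1) ^ 2 = 1 - e none ^ 2 - r := by linarith
      rw [hd, h9]
      nlinarith
    rw [← Finset.sum_mul, ← hr] at h4
    have h5 : (∑ k ∈ R, e (some k) ^ 2 / β k) * d ≤ r * (1 - r) := by
      have := mul_le_mul_of_nonneg_right h4 hd0.le
      rwa [mul_assoc, div_mul_cancel₀ _ hd0.ne'] at this
    have h9 : r = 1 - e none ^ 2 - e (some k1) ^ 2 := by linarith
    rw [hS, add_mul]
    rw [h9] at h5
    rw [hd] at h5 ⊢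
    nlinarith
  have hS1 : 0 < S := by
    rcases (add_nonneg (sq_nonneg (e none)) hS0).eq_or_lt with h | h
    · exfalso
      have ha : e none ^ 2 = 0 := by nlinarith [sq_nonneg (e none)]
      have hb : ∑ k ∈ R, e (some k) ^ 2 / β k = 0 := by nlinarith [sq_nonneg (e none)]
      have hc' : r = 0 := by
        rw [hr]
        refine Finset.sum_eq_zero fun k hk => ?_
        have := (Finset.sum_eq_zero_iff_of_nonneg
          (fun k hk => div_nonneg (sq_nonneg _) (hβ0 k hk).le)).1 hb k hk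
        rcases div_eq_zero_iff.1 this with h | h
        · exact h
        · exact absurd h (hβ0 k hk).ne'
      linarith
    · exact h
  have hfin : n (some k1) ^ 2 * (d / (1 - e (some k1) ^ 2)) ≤ T := by
    have h4 : 0 < 1 - e (some k1) ^ 2 := by linarith
    have h5 : S * (d / (1 - e (some k1) ^ 2)) ≤ e (some k1) ^ 2 := by
      rw [← mul_div_assoc, div_le_iff₀ h4]; exact hSb
    have h6 : (n (some k1) ^ 2 * (d / (1 - e (some k1) ^ 2))) * S ≤ T * S := by
      calc (n (some k1) ^ 2 * (d / (1 - e (some k1) ^ 2))) * S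
          = n (some k1) ^ 2 * (S * (d / (1 - e (some k1) ^ 2))) := by ring
        _ ≤ n (some k1) ^ 2 * e (some k1) ^ 2 := mul_le_mul_of_nonneg_left h5 (sq_nonneg _)
        _ = (e (some k1) * n (some k1)) ^ 2 := by ring
        _ ≤ T * S := hCS
    exact le_of_mul_le_mul_right h6 hS1
  have hsum : ∑ k : ι, n (some k) ^ 2 * β k = n (some k1) ^ 2 * β k1 +
      ∑ k ∈ R, n (some k) ^ 2 * β k := (Finset.add_sum_erase _ _ (mem_univ k1)).symm
  rw [hsum]
  have e2 : n (some k1) ^ 2 * β k1 = - (n (some k1) ^ 2 * (d / (1 - e (some k1) ^ 2))) := by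
    rw [hβ, hd]
    simp only
    rw [← mul_neg, ← neg_div]
    congr 2
    ring
  rw [e2]
  rw [hT] at hfin
  linarith

/-- the projection onto the complement of two orthonormal vectors -/
theorem proj_sum (e n : Option ι → ℝ) (h1 : ∑ o, e o ^ 2 = 1) (h2 : ∑ o, n o ^ 2 = 1)
    (h3 : ∑ o, e o * n o = 0) [DecidableEq ι] (o p : Option ι) :
    ∑ q, ((if o = q then 1 else 0) - e o * e q - n o * n q) *
      ((if p = q then 1 else 0) - e p * e q - n p * n q) =
      (if o = p then 1 else 0) - e o * e p - n o * n p := by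
  have e1 : ∀ q, ((if o = q then (1 : ℝ) else 0) - e o * e q - n o * n q) *
      ((if p = q then 1 else 0) - e p * e q - n p * n q) =
      (if o = q then (if p = q then (1 : ℝ) else 0) - e p * e q - n p * n q else 0) -
      (if p = q then e o * e q + n o * n q else 0) + e o * e p * e q ^ 2 + n o * n p * n q ^ 2 +
      (e o * n p + n o * e p) * (e q * n q) := by
    intro q
    by_cases h : o = q <;> by_cases h' : p = q <;> simp only [h, h', if_true, if_false] <;> ring
  rw [Finset.sum_congr rfl fun q _ => e1 q]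
  simp only [Finset.sum_add_distrib, Finset.sum_sub_distrib, ← Finset.mul_sum, h1, h2, h3]
  rw [Finset.sum_ite_eq, Finset.sum_ite_eq]
  simp only [mem_univ, if_true]
  by_cases h : o = p
  · rw [if_pos h, if_pos h.symm]; ring
  · rw [if_neg h, if_neg (Ne.symm h)]; ring

/-- the star inequality in the extremal case -/
theorem star_extremal (e u : Option ι → ℝ) (h1 : ∑ o, e o ^ 2 = 1) (h2 : ∑ o, u o ^ 2 = 1)
    (hc : ∀ k : ι, e (some k) ^ 2 < 1) {c : ℝ} (hcc : ∑ o, e o * u o = c) :
    ∑ k : ι, (u (some k) - c * e (some k)) ^ 2 * ((u none ^ 2 + u (some k) ^ 2) /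
      (1 - e (some k) ^ 2)) ≤ 1 - c ^ 2 := by
  classical
  have hnorm : ∑ o, (u o - c * e o) ^ 2 = 1 - c ^ 2 := by
    have e1 : ∀ o, (u o - c * e o) ^ 2 = u o ^ 2 - 2 * c * (e o * u o) + c ^ 2 * e o ^ 2 := by
      intro o; ring
    rw [Finset.sum_congr rfl fun o _ => e1 o, Finset.sum_add_distrib, Finset.sum_sub_distrib,
      ← Finset.mul_sum, ← Finset.mul_sum, h1, h2, hcc]
    ring
  have hge : 0 ≤ 1 - c ^ 2 := by
    rw [← hnorm]; exact Finset.sum_nonneg fun o _ => sq_nonneg _
  rcases hge.eq_or_lt with h0 | h0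
  · -- degenerate case
    rw [← h0] at hnorm ⊢
    refine le_of_eq (Finset.sum_eq_zero fun k _ => ?_)
    have := (Finset.sum_eq_zero_iff_of_nonneg (fun o _ => sq_nonneg _)).1 hnorm (some k) (mem_univ _)
    rw [this, zero_mul]
  set s : ℝ := √(1 - c ^ 2) with hs
  have hs0 : 0 < s := Real.sqrt_pos.2 h0
  have hss : s ^ 2 = 1 - c ^ 2 := Real.sq_sqrt h0.le
  set n : Option ι → ℝ := fun o => (u o - c * e o) / s with hn
  have hun : ∀ o, u o - c * e o = s * n o := by
    intro o; rw [hn]; simp only; field_simp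
  have hn2 : ∑ o, n o ^ 2 = 1 := by
    have e1 : ∀ o, n o ^ 2 = (u o - c * e o) ^ 2 / s ^ 2 := fun o => by rw [hn]; simp only [div_pow]
    rw [Finset.sum_congr rfl fun o _ => e1 o, ← Finset.sum_div, hnorm, hss]
    exact div_self h0.ne'
  have hn3 : ∑ o, e o * n o = 0 := by
    have e1 : ∀ o, e o * n o = (e o * u o - c * e o ^ 2) / s := fun o => by
      rw [hn]; simp only; ring
    rw [Finset.sum_congr rfl fun o _ => e1 o, ← Finset.sum_div, Finset.sum_sub_distrib,
      ← Finset.mul_sum, h1, hcc]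
    simp
  have hnu : ∑ o, n o * u o = s := by
    have e1 : ∀ o, n o * u o = c * (e o * n o) + s * n o ^ 2 := fun o => by
      have := hun o
      have : u o = c * e o + s * n o := by linarith
      rw [this]; ring
    rw [Finset.sum_congr rfl fun o _ => e1 o, Finset.sum_add_distrib, ← Finset.mul_sum,
      ← Finset.mul_sum, hn2, hn3]
    ring
  -- projection
  set Q : Option ι → Option ι → ℝ := fun o p => (if o = p then 1 else 0) - e o * e p - n o * n p
    with hQ
  have hQQ : ∀ o p, ∑ q, Q o q * Q p q = Q o p := fun o p => proj_sum e n h1 hn2 hn3 o p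
  have hQd : ∀ o, ∑ q, Q o q ^ 2 = Q o o := by
    intro o; rw [← hQQ o o]; exact Finset.sum_congr rfl fun q _ => sq _
  have hQ0 : ∀ o, 0 ≤ Q o o := fun o => by
    rw [← hQd o]; exact Finset.sum_nonneg fun q _ => sq_nonneg _
  have hQm : ∀ o p, Q o p ^ 2 ≤ Q o o * Q p p := by
    intro o p
    rw [← hQd o, ← hQd p, ← hQQ o p]
    exact Finset.sum_mul_sq_le_sq_mul_sq _ _ _
  have hQo : ∀ o, Q o o = 1 - e o ^ 2 - n o ^ 2 := by
    intro o; rw [hQ]; simp only [if_true]; ring
  have hQu : ∑ q, Q none q * u q = 0 := by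
    have e1 : ∀ q, Q none q * u q = (if none = q then u q else 0) - e none * (e q * u q) -
        n none * (n q * u q) := by
      intro q
      rw [hQ]
      by_cases h : none = q <;> simp only [h, if_true, if_false] <;> ring
    rw [Finset.sum_congr rfl fun q _ => e1 q, Finset.sum_sub_distrib, Finset.sum_sub_distrib,
      ← Finset.mul_sum, ← Finset.mul_sum, hcc, hnu, Finset.sum_ite_eq]
    simp only [mem_univ, if_true]
    have := hun none
    linarith
  -- the numbers `A_k`
  have hc' : ∀ k : ι, 0 < 1 - e (some k) ^ 2 := fun k => by have := hc k; linarith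
  set A : ι → ℝ := fun k => n (some k) ^ 2 / (1 - e (some k) ^ 2) with hA
  have hA1 : ∀ k, (1 - A k) * (1 - e (some k) ^ 2) = Q (some k) (some k) := by
    intro k
    have := (hc' k).ne'
    rw [hQo, hA]
    simp only
    field_simp
  have hA1' : ∀ k, 0 ≤ 1 - A k := by
    intro k
    by_contra hlt
    push Not at hlt
    have := hA1 k
    have h5 := hQ0 (some k)
    have h6 := mul_neg_of_neg_of_pos hlt (hc' k)
    linarith
  set E : ℝ := ∑ k, A k with hE
  set S : ℝ := ∑ k, (1 - A k) * u (some k) ^ 2 with hS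
  have hS0 : 0 ≤ S := Finset.sum_nonneg fun k _ => mul_nonneg (hA1' k) (sq_nonneg _)
  have hXe := orthonormal_ineq e n h1 hn3 hc
  rw [Fintype.sum_option] at hn2
  have hE2 : (E - 1) * (1 + e none ^ 2) ≤ Q none none := by
    have e1 : ∀ k, n (some k) ^ 2 * ((1 - e none ^ 2 - 2 * e (some k) ^ 2) / (1 - e (some k) ^ 2)) =
        2 * n (some k) ^ 2 - (1 + e none ^ 2) * A k := by
      intro k
      have := (hc' k).ne'
      rw [hA]; simp only; field_simp; ring
    rw [Finset.sum_congr rfl fun k _ => e1 k, Finset.sum_sub_distrib, ← Finset.mul_sum,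
      ← Finset.mul_sum, ← hE] at hXe
    rw [hQo]
    nlinarith
  -- Cauchy-Schwarz
  have hCS : Q none none ^ 2 * u none ^ 2 ≤ Q none none * (1 + e none ^ 2) * S := by
    rw [Fintype.sum_option] at hQu
    have e1 : Q none none ^ 2 * u none ^ 2 = (∑ k, Q none (some k) * u (some k)) ^ 2 := by
      have : ∑ k, Q none (some k) * u (some k) = - (Q none none * u none) := by linarith
      rw [this]; ring
    rw [e1]
    have h4 : (∑ k, Q none (some k) * u (some k)) ^ 2 ≤
        (∑ k, (Q none (some k) ^ 2 + Q none none * n (some k) ^ 2)) * S := by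
      refine Finset.sum_sq_le_sum_mul_sum_of_sq_le_mul _
        (fun k _ => add_nonneg (sq_nonneg _) (mul_nonneg (hQ0 _) (sq_nonneg _)))
        (fun k _ => mul_nonneg (hA1' k) (sq_nonneg _)) fun k _ => ?_
      rw [mul_pow, ← mul_assoc]
      refine mul_le_mul_of_nonneg_right ?_ (sq_nonneg _)
      have h5 := hQm none (some k)
      have h6 := hA1 k
      have h7 := hQo (some k)
      have h8 : Q none (some k) ^ 2 * (1 - e (some k) ^ 2) ≤
          (Q none (some k) ^ 2 + Q none none * n (some k) ^ 2) * (1 - A k) *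
            (1 - e (some k) ^ 2) := by
        rw [mul_assoc, h6]
        have h9 : 1 - e (some k) ^ 2 = Q (some k) (some k) + n (some k) ^ 2 := by linarith
        rw [h9]
        nlinarith [mul_le_mul_of_nonneg_right h5 (sq_nonneg (n (some k)))]
      exact le_of_mul_le_mul_right h8 (hc' k)
    have h5 : ∑ k, (Q none (some k) ^ 2 + Q none none * n (some k) ^ 2) =
        Q none none * (1 + e none ^ 2) := by
      have h6 := hQd none
      rw [Fintype.sum_option] at h6
      have h7 := hQo none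
      have e2 : ∑ k, Q none (some k) ^ 2 = Q none none - Q none none ^ 2 := by linarith
      have e3 : ∑ k, n (some k) ^ 2 = 1 - n none ^ 2 := by linarith
      rw [Finset.sum_add_distrib, ← Finset.mul_sum, e2, e3]
      have : Q none none - Q none none ^ 2 = Q none none * (1 - Q none none) := by ring
      rw [this, ← mul_add]
      congr 1
      linarith
    rw [h5] at h4
    exact h4
  have hmain : (E - 1) * u none ^ 2 ≤ S := by
    rcases (hQ0 none).eq_or_lt with h | h
    · rw [← h] at hE2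
      have h4 : E - 1 ≤ 0 := by
        by_contra hlt
        push Not at hlt
        have := mul_pos hlt (show 0 < 1 + e none ^ 2 by positivity)
        linarith
      have := mul_nonpos_of_nonpos_of_nonneg h4 (sq_nonneg (u none))
      linarith
    · have h4 : Q none none * u none ^ 2 ≤ (1 + e none ^ 2) * S := by
        have : Q none none * (Q none none * u none ^ 2) ≤ Q none none * ((1 + e none ^ 2) * S) := by
          nlinarith
        exact le_of_mul_le_mul_left this h
      have h5 : (E - 1) * (1 + e none ^ 2) * u none ^ 2 ≤ Q none none * u none ^ 2 :=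
        mul_le_mul_of_nonneg_right hE2 (sq_nonneg _)
      have h6 : (1 + e none ^ 2) * ((E - 1) * u none ^ 2) ≤ (1 + e none ^ 2) * S := by
        nlinarith
      exact le_of_mul_le_mul_left h6 (by positivity)
  -- conclusion
  have e1 : ∀ k, (u (some k) - c * e (some k)) ^ 2 * ((u none ^ 2 + u (some k) ^ 2) /
      (1 - e (some k) ^ 2)) = s ^ 2 * (A k * u none ^ 2 + A k * u (some k) ^ 2) := by
    intro k
    have := (hc' k).ne'
    rw [hun, hA]; simp only; field_simp
  rw [Finset.sum_congr rfl fun k _ => e1 k, ← Finset.mul_sum, Finset.sum_add_distrib,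
    ← Finset.sum_mul, ← hE, hss]
  have e2 : S = (∑ k, u (some k) ^ 2) - ∑ k, A k * u (some k) ^ 2 := by
    rw [hS, ← Finset.sum_sub_distrib]
    exact Finset.sum_congr rfl fun k _ => by ring
  rw [Fintype.sum_option] at h2
  have h4 : E * u none ^ 2 + ∑ k, A k * u (some k) ^ 2 ≤ 1 := by
    rw [e2] at hmain
    linarith
  nlinarith

/-- the star inequality -/
theorem star_ineq (ρ c : ι → ℝ) (x : ℝ) (hc : ∀ k, c k ^ 2 < 1) (hσ : ∑ k, ρ k ^ 2 ≤ 1)
    (hτ : ∑ k, c k ^ 2 ≤ 1)
    (hx : (x - ∑ k, ρ k * c k) ^ 2 ≤ (1 - ∑ k, ρ k ^ 2) * (1 - ∑ k, c k ^ 2)) :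
    ∑ k, (ρ k - x * c k) ^ 2 * ((1 - ∑ l, ρ l ^ 2 + ρ k ^ 2) / (1 - c k ^ 2)) ≤ 1 - x ^ 2 := by
  set σ : ℝ := 1 - ∑ k, ρ k ^ 2 with hσ'
  set τ : ℝ := 1 - ∑ k, c k ^ 2 with hτ'
  set p : ℝ := ∑ k, ρ k * c k with hp
  have hσ0 : 0 ≤ σ := by linarith
  have hτ0 : 0 ≤ τ := by linarith
  set r : ℝ := √σ * √τ with hr
  have hr0 : 0 ≤ r := by positivity
  have hrr : r ^ 2 = σ * τ := by rw [hr, mul_pow, Real.sq_sqrt hσ0, Real.sq_sqrt hτ0]
  have hxr : |x - p| ≤ r := by
    rw [← hrr] at hx
    exact abs_le_of_sq_le_sq hx hr0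
  have hx1 := (abs_le.1 hxr).1
  have hx2 := (abs_le.1 hxr).2
  set W : ι → ℝ := fun k => (σ + ρ k ^ 2) / (1 - c k ^ 2) with hW
  have hW0 : ∀ k, 0 ≤ W k := by
    intro k
    have := hc k
    exact div_nonneg (by positivity) (by linarith)
  set α : ℝ := 1 + ∑ k, c k ^ 2 * W k with hα
  set β : ℝ := ∑ k, ρ k * c k * W k with hβ
  set γ : ℝ := ∑ k, ρ k ^ 2 * W k with hγ
  have hF : ∀ y : ℝ, ∑ k, (ρ k - y * c k) ^ 2 * W k = γ - 2 * y * β + y ^ 2 * (α - 1) := by
    intro y
    have e1 : ∀ k, (ρ k - y * c k) ^ 2 * W k = ρ k ^ 2 * W k - 2 * y * (ρ k * c k * W k) +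
        y ^ 2 * (c k ^ 2 * W k) := fun k => by ring
    rw [Finset.sum_congr rfl fun k _ => e1 k, Finset.sum_add_distrib, Finset.sum_sub_distrib,
      ← Finset.mul_sum, ← Finset.mul_sum, hα]
    ring
  have hα0 : 0 ≤ α := by
    have : 0 ≤ ∑ k, c k ^ 2 * W k :=
      Finset.sum_nonneg fun k _ => mul_nonneg (sq_nonneg _) (hW0 k)
    rw [hα]; linarith
  -- the two end points
  have hend : ∀ t : ℝ, t ^ 2 = τ →
      γ - 2 * (p + √σ * t) * β + (p + √σ * t) ^ 2 * (α - 1) ≤ 1 - (p + √σ * t) ^ 2 := by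
    intro t ht
    have h := star_extremal (fun o : Option ι => o.elim t c) (fun o : Option ι => o.elim (√σ) ρ)
      (by rw [Fintype.sum_option]; simp only [Option.elim]; rw [ht, hτ']; ring)
      (by rw [Fintype.sum_option]; simp only [Option.elim]; rw [Real.sq_sqrt hσ0, hσ']; ring)
      (fun k => by simpa using hc k) (c := p + √σ * t)
      (by
        rw [Fintype.sum_option]; simp only [Option.elim]
        rw [hp]
        have : ∑ k, c k * ρ k = ∑ k, ρ k * c k := Finset.sum_congr rfl fun k _ => mul_comm _ _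
        rw [this]; ring)
    simp only [Option.elim] at h
    rw [Real.sq_sqrt hσ0] at h
    have h5 := hF (p + √σ * t)
    rw [← h5]
    exact h
  have hp1 := hend (√τ) (Real.sq_sqrt hτ0)
  have hp2 := hend (-√τ) (by rw [neg_sq]; exact Real.sq_sqrt hτ0)
  have ea : √σ * √τ = r := rfl
  have eb : √σ * -√τ = -r := by rw [mul_neg]
  rw [ea] at hp1
  rw [eb] at hp2
  have h5 := hF x
  show ∑ k, (ρ k - x * c k) ^ 2 * W k ≤ 1 - x ^ 2
  rw [h5]
  rcases hr0.eq_or_lt with h | h
  · have : x = p := by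
      rw [← h] at hxr
      have := abs_nonpos_iff.1 hxr
      linarith
    rw [this]
    rw [← h] at hp1
    simpa using hp1
  · -- convexity
    have h6 : 0 ≤ (x - (p - r)) := by linarith
    have h7 : 0 ≤ (p + r) - x := by linarith
    have h8 := mul_le_mul_of_nonneg_left hp1 h6
    have h9 := mul_le_mul_of_nonneg_left hp2 h7
    have h10 : 0 ≤ α * ((2 * r) * ((x - (p - r)) * ((p + r) - x))) := by positivity
    have h11 : (2 * r) * (γ - 2 * x * β + x ^ 2 * (α - 1)) ≤ (2 * r) * (1 - x ^ 2) := by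
      nlinarith
    exact le_of_mul_le_mul_left h11 (by linarith)

end Pool.Agent.Helper88.CE
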