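import Pool.Agent.Helper88.CE.Ball

/-!
# Weights on the edges
-/

open Finset Pool.Agent.Helper71.CE

namespace Pool.Agent.Helper88.CE

variable {V : Type*} [Fintype V] [DecidableEq V]

/-- discriminant argument -/
theorem disc {C q σ : ℝ} (hC0 : 0 ≤ C) (hC1 : C ≤ 1)
    (h : ∀ l : ℝ, (q + l * C) ^ 2 ≤ σ + l ^ 2 * C) : q ^ 2 ≤ σ * (1 - C) := by
  have hσ : q ^ 2 ≤ σ := by simpa using h 0
  rcases hC1.eq_or_lt with h1 | h1
  · subst h1
    have hq : q = 0 := by
      by_contra hne
      have := h ((σ - q ^ 2 + 1) / (2 * q))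
      have e : (q + (σ - q ^ 2 + 1) / (2 * q) * 1) ^ 2 = q ^ 2 + (σ - q ^ 2 + 1) +
          ((σ - q ^ 2 + 1) / (2 * q)) ^ 2 * 1 := by
        field_simp
        ring
      rw [e] at this
      linarith
    rw [hq]; ring_nf; exact le_refl _
  · have hτ : 0 < 1 - C := by linarith
    have := h (q / (1 - C))
    have e : (q + q / (1 - C) * C) ^ 2 = q ^ 2 / (1 - C) ^ 2 := by
      field_simp
      ring
    have e2 : (q / (1 - C)) ^ 2 * C = q ^ 2 * C / (1 - C) ^ 2 := by
      field_simp
    rw [e, e2] at this
    have h3 : q ^ 2 / (1 - C) ^ 2 - q ^ 2 * C / (1 - C) ^ 2 ≤ σ := by linarith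
    have e3 : q ^ 2 / (1 - C) ^ 2 - q ^ 2 * C / (1 - C) ^ 2 = q ^ 2 / (1 - C) := by
      field_simp
    rw [e3, div_le_iff₀ hτ] at h3
    exact h3

/-- the consequences of `R ≥ c cᵀ` on a part of the star of a vertex -/
theorem star_local {G : SimpleGraph V} (hG : G.CliqueFree 3) {R : V → V → ℝ} (hR : InPG G R)
    (h1 : ∀ i, R i i = 1) {c : V → ℝ} (hc : Psd (fun i j => R i j - c i * c j)) (i : V)
    (P : V → Prop) [DecidablePred P] (hP : ∀ k, P k → G.Adj i k) :
    ∑ k, (if P k then R i k else 0) ^ 2 ≤ 1 ∧ ∑ k, (if P k then c k else 0) ^ 2 ≤ 1 ∧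
    (c i - ∑ k, (if P k then R i k else 0) * (if P k then c k else 0)) ^ 2 ≤
      (1 - ∑ k, (if P k then R i k else 0) ^ 2) * (1 - ∑ k, (if P k then c k else 0) ^ 2) := by
  obtain ⟨hPs, h0, hz⟩ := hR
  have htri : ∀ a b c, G.Adj a b → G.Adj b c → ¬ G.Adj a c := by
    intro a b c hab hbc hac
    exact hG {a, b, c} (SimpleGraph.is3Clique_triple_iff.2 ⟨hab, hac, hbc⟩)
  set ρ : V → ℝ := fun k => if P k then R i k else 0 with hρ
  set d : V → ℝ := fun k => if P k then c k else 0 with hd
  have hnP : ¬ P i := fun h => (hP i h).ne rfl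
  -- the quadratic form
  have key : ∀ (α : ℝ) (y : V → ℝ), (∀ k, ¬ P k → y k = 0) →
      (α * c i + ∑ k, d k * y k) ^ 2 ≤ α ^ 2 + 2 * α * ∑ k, ρ k * y k + ∑ k, y k ^ 2 := by
    intro α y hy
    have hq := hc.2 (fun l => α * (if l = i then 1 else 0) + y l)
    have hyi : y i = 0 := hy i hnP
    have e1 : qf (fun i j => R i j - c i * c j) (fun l => α * (if l = i then 1 else 0) + y l) =
        qf R (fun l => α * (if l = i then 1 else 0) + y l) -
        (∑ l, (α * (if l = i then 1 else 0) + y l) * c l) ^ 2 := by
      rw [sq (∑ l, (α * (if l = i then 1 else 0) + y l) * c l), Finset.sum_mul_sum]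
      simp only [qf, ← Finset.sum_sub_distrib]
      refine Finset.sum_congr rfl fun l _ => Finset.sum_congr rfl fun k _ => by ring
    have e2 : ∑ l, (α * (if l = i then 1 else 0) + y l) * c l = α * c i + ∑ k, d k * y k := by
      have e3 : ∀ l, (α * (if l = i then 1 else 0) + y l) * c l =
          (if l = i then α * c l else 0) + d l * y l := by
        intro l
        have e4 : y l * c l = d l * y l := by
          by_cases hl : P l
          · rw [hd]; simp only [if_pos hl]; ring
          · rw [hy l hl]; ring
        by_cases hli : l = i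
        · rw [if_pos hli, if_pos hli, ← e4]; ring
        · rw [if_neg hli, if_neg hli, ← e4]; ring
      rw [Finset.sum_congr rfl fun l _ => e3 l, Finset.sum_add_distrib, Finset.sum_ite_eq']
      simp
    have e5 : qf R (fun l => α * (if l = i then 1 else 0) + y l) =
        α ^ 2 + 2 * α * ∑ k, ρ k * y k + ∑ k, y k ^ 2 := by
      have s1 : qf R (fun l => α * (if l = i then 1 else 0) + y l) =
          α ^ 2 * (∑ l, ∑ k, (if l = i then (1:ℝ) else 0) * R l k * (if k = i then 1 else 0)) +
          α * (∑ l, ∑ k, (if l = i then (1:ℝ) else 0) * R l k * y k) +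
          α * (∑ l, ∑ k, y l * R l k * (if k = i then (1:ℝ) else 0)) +
          (∑ l, ∑ k, y l * R l k * y k) := by
        simp only [qf, Finset.mul_sum, ← Finset.sum_add_distrib]
        refine Finset.sum_congr rfl fun l _ => Finset.sum_congr rfl fun k _ => ?_
        ring
      have s2 : ∑ l, ∑ k, y l * R l k * (if k = i then (1:ℝ) else 0) =
          ∑ l, ∑ k, (if l = i then (1:ℝ) else 0) * R l k * y k := by
        rw [Finset.sum_comm]
        refine Finset.sum_congr rfl fun l _ => Finset.sum_congr rfl fun k _ => ?_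
        rw [hPs.1 k l]; ring
      have s3 : ∀ f : V → ℝ, ∑ l, ∑ k, (if l = i then (1:ℝ) else 0) * R l k * f k =
          ∑ k, R i k * f k := by
        intro f
        rw [Finset.sum_eq_single i]
        · simp
        · intro l _ hl; simp [hl]
        · intro h; exact absurd (mem_univ i) h
      have s4 : ∑ k, R i k * (if k = i then (1:ℝ) else 0) = 1 := by simp [h1]
      have s5 : ∑ k, R i k * y k = ∑ k, ρ k * y k := by
        refine Finset.sum_congr rfl fun k _ => ?_
        by_cases hk : P k
        · rw [hρ]; simp only [if_pos hk]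
        · rw [hy k hk]; ring
      have s6 : ∑ l, ∑ k, y l * R l k * y k = ∑ k, y k ^ 2 := by
        refine Finset.sum_congr rfl fun j _ => ?_
        rw [Finset.sum_eq_single j]
        · rw [h1]; ring
        · intro k _ hkj
          by_contra h
          have hj : P j := by
            by_contra h'
            exact (left_ne_zero_of_mul (left_ne_zero_of_mul h)) (hy j h')
          have hk : P k := by
            by_contra h'
            exact (right_ne_zero_of_mul h) (hy k h')
          have hjk : G.Adj j k := by
            by_contra h'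
            exact (right_ne_zero_of_mul (left_ne_zero_of_mul h)) (hz j k (Ne.symm hkj) h')
          exact htri i j k (hP j hj) hjk (hP k hk)
        · intro h; exact absurd (mem_univ j) h
      rw [s1, s2, s3, s3, s4, s5, s6]
      ring
    rw [e1, e2, e5] at hq
    linarith
  have hρ0 : ∀ k, ¬ P k → ρ k = 0 := fun k hk => by rw [hρ]; simp only [if_neg hk]
  have hd0 : ∀ k, ¬ P k → d k = 0 := fun k hk => by rw [hd]; simp only [if_neg hk]
  set C : ℝ := ∑ k, d k ^ 2 with hC
  have hC0 : 0 ≤ C := Finset.sum_nonneg fun k _ => sq_nonneg _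
  have k1 : C ≤ 1 := by
    have := key 0 d hd0
    have e : ∑ k, d k * d k = C := by rw [hC]; exact Finset.sum_congr rfl fun k _ => (sq _).symm
    rw [e] at this
    by_contra hlt
    push Not at hlt
    nlinarith
  set S : ℝ := ∑ k, ρ k ^ 2 with hS
  set p : ℝ := ∑ k, ρ k * d k with hp
  have k2 : ∀ l : ℝ, (p - c i + l * C) ^ 2 ≤ (1 - S) + l ^ 2 * C := by
    intro l
    have := key (-1) (fun k => ρ k + l * d k) (fun k hk => by simp only [hρ0 k hk, hd0 k hk]; ring)
    have e1 : ∑ k, d k * (ρ k + l * d k) = p + l * C := by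
      rw [hp, hC, Finset.mul_sum, ← Finset.sum_add_distrib]
      exact Finset.sum_congr rfl fun k _ => by ring
    have e2 : ∑ k, ρ k * (ρ k + l * d k) = S + l * p := by
      rw [hp, hS, Finset.mul_sum, ← Finset.sum_add_distrib]
      exact Finset.sum_congr rfl fun k _ => by ring
    have e3 : ∑ k, (ρ k + l * d k) ^ 2 = S + 2 * l * p + l ^ 2 * C := by
      rw [hp, hS, hC, Finset.mul_sum, Finset.mul_sum, ← Finset.sum_add_distrib,
        ← Finset.sum_add_distrib]
      exact Finset.sum_congr rfl fun k _ => by ring
    rw [e1, e2, e3] at this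
    nlinarith
  have k3 := disc hC0 k1 k2
  have k4 : S ≤ 1 := by
    have := k2 0
    nlinarith [sq_nonneg (p - c i + 0 * C)]
  refine ⟨k4, k1, ?_⟩
  have e : (c i - p) ^ 2 = (p - c i) ^ 2 := by ring
  rw [e]
  exact k3

/-- the weights -/
theorem exists_weights {G : SimpleGraph V} (hG : G.CliqueFree 3)
    (h5 : ∀ a b c d e, G.Adj a b → G.Adj b c → G.Adj c d → G.Adj d e → ¬ G.Adj e a)
    {R : V → V → ℝ} (hR : InPG G R) (h1 : ∀ i, R i i = 1) {c : V → ℝ}
    (hc : Psd (fun i j => R i j - c i * c j)) :
    ∃ w : V → V → ℝ, (∀ i j, 0 ≤ w i j) ∧ (∀ i, ∑ j ∈ univ.erase i, w i j ≤ 1) ∧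
      ∀ i j, i ≠ j → R i j ^ 2 * (R i j - c i * c j) ^ 2 ≤
        w i j * w j i * ((1 - c i ^ 2) * (1 - c j ^ 2)) := by
  classical
  have hR' := hR
  obtain ⟨hPs, h0, hz⟩ := hR
  have hci : ∀ i, 0 ≤ 1 - c i ^ 2 := by
    intro i
    have := hc.diag_nonneg i
    simp only [h1] at this
    nlinarith
  have hmin : ∀ i j, (R i j - c i * c j) ^ 2 ≤ (1 - c i ^ 2) * (1 - c j ^ 2) := by
    intro i j
    have := hc.minor i j
    simp only [h1] at this
    nlinarith
  -- `δ²`
  set D : V → V → ℝ := fun i j => (R i j - c i * c j) ^ 2 / ((1 - c i ^ 2) * (1 - c j ^ 2)) with hD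
  have hD0 : ∀ i j, 0 ≤ D i j := fun i j =>
    div_nonneg (sq_nonneg _) (mul_nonneg (hci i) (hci j))
  have hDs : ∀ i j, D i j = D j i := by
    intro i j
    rw [hD]; simp only
    rw [hPs.1 i j, mul_comm (c i) (c j), mul_comm (1 - c i ^ 2)]
  have hrest : ∀ i j, i ≠ j → 0 ≤ rest R i j := fun i j hij =>
    (sq_nonneg _).trans (rest_ge hG hR' h1 (Ne.symm hij))
  set w : V → V → ℝ := fun i j => if G.Adj i j then
    (D i j * rest R i j + R i j ^ 2 / rest R j i) / 2 else 0 with hw
  have hw0 : ∀ i j, 0 ≤ w i j := by
    intro i j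
    rw [hw]; simp only
    split_ifs with h
    · have := hrest i j h.ne
      have := hrest j i h.ne.symm
      have := hD0 i j
      positivity
    · exact le_refl _
  refine ⟨w, hw0, ?_, ?_⟩
  · intro i
    -- split into the two sums
    have hY := ball_ineq hG h5 hR' h1 i
    have hX : ∑ j ∈ univ.erase i, (if G.Adj i j then D i j * rest R i j else 0) ≤ 1 := by
      set P : V → Prop := fun k => G.Adj i k ∧ c k ^ 2 < 1 with hP
      obtain ⟨a1, a2, a3⟩ := star_local hG hR' h1 hc i P (fun k hk => hk.1)
      set ρ : V → ℝ := fun k => if P k then R i k else 0 with hρ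
      set d : V → ℝ := fun k => if P k then c k else 0 with hd
      have hd1 : ∀ k, d k ^ 2 < 1 := by
        intro k
        rw [hd]; simp only
        split_ifs with h
        · exact h.2
        · norm_num
      have a4 := star_ineq ρ d (c i) hd1 a1 a2 a3
      rcases (hci i).eq_or_lt with hi0 | hi0
      · -- `c i ^ 2 = 1`
        refine le_trans (le_of_eq (Finset.sum_eq_zero fun j _ => ?_)) zero_le_one
        split_ifs with h
        · rw [hD]; simp only; rw [← hi0]; simp
        · rfl
      · have e1 : ∀ j, (1 - c i ^ 2) * (if G.Adj i j then D i j * rest R i j else 0) ≤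
            (ρ j - c i * d j) ^ 2 * ((1 - ∑ l, ρ l ^ 2 + ρ j ^ 2) / (1 - d j ^ 2)) := by
          intro j
          have hnn : 0 ≤ (ρ j - c i * d j) ^ 2 * ((1 - ∑ l, ρ l ^ 2 + ρ j ^ 2) / (1 - d j ^ 2)) := by
            have b1 := hd1 j
            have b2 : 0 ≤ 1 - ∑ l, ρ l ^ 2 + ρ j ^ 2 := by nlinarith [sq_nonneg (ρ j)]
            exact mul_nonneg (sq_nonneg _) (div_nonneg b2 (by linarith))
          by_cases hadj : G.Adj i j
          · by_cases hcj : c j ^ 2 < 1
            · have hPj : P j := ⟨hadj, hcj⟩
              have b1 : ρ j = R i j := by rw [hρ]; simp only [if_pos hPj]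
              have b2 : d j = c j := by rw [hd]; simp only [if_pos hPj]
              rw [if_pos hadj, b1, b2]
              have b3 : rest R i j ≤ 1 - ∑ l, ρ l ^ 2 + R i j ^ 2 := by
                rw [rest]
                have b4 : ∑ l, ρ l ^ 2 = ρ j ^ 2 + ∑ l ∈ univ.erase j, ρ l ^ 2 :=
                  (Finset.add_sum_erase _ _ (mem_univ j)).symm
                have b5 : ∑ k, (if k = j ∨ k = i then 0 else R i k ^ 2) =
                    ∑ l ∈ univ.erase j, (if l = j ∨ l = i then 0 else R i l ^ 2) := by
                  rw [← Finset.add_sum_erase _ _ (mem_univ j)]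
                  simp
                have b6 : ∑ l ∈ univ.erase j, ρ l ^ 2 ≤
                    ∑ l ∈ univ.erase j, (if l = j ∨ l = i then 0 else R i l ^ 2) := by
                  refine Finset.sum_le_sum fun l hl => ?_
                  have hlj := Finset.ne_of_mem_erase hl
                  by_cases hPl : P l
                  · have hli : l ≠ i := fun e => by
                      rw [e] at hPl; exact hPl.1.ne rfl
                    rw [if_neg (by push Not; exact ⟨hlj, hli⟩), hρ]
                    simp only [if_pos hPl]; exact le_refl _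
                  · have : ρ l = 0 := by rw [hρ]; simp only [if_neg hPl]
                    rw [this, zero_pow two_ne_zero]
                    split_ifs
                    · exact le_refl _
                    · exact sq_nonneg _
                rw [b4, b5, b1]
                linarith
              have b7 : 0 < 1 - c j ^ 2 := by linarith
              have b8 : (1 - c i ^ 2) * (D i j * rest R i j) =
                  (R i j - c i * c j) ^ 2 * (rest R i j / (1 - c j ^ 2)) := by
                rw [hD]; simp only
                field_simp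
              rw [b8]
              refine mul_le_mul_of_nonneg_left ?_ (sq_nonneg _)
              exact div_le_div_of_nonneg_right b3 b7.le
            · have b9 : D i j = 0 := by
                have b10 : 1 - c j ^ 2 = 0 := by
                  have := hci j
                  push Not at hcj
                  linarith
                rw [hD]; simp only; rw [b10]; simp
              rw [if_pos hadj, b9]
              simpa using hnn
          · rw [if_neg hadj, mul_zero]; exact hnn
        have e2 : (1 - c i ^ 2) * ∑ j ∈ univ.erase i, (if G.Adj i j then D i j * rest R i j else 0) ≤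
            (1 - c i ^ 2) * 1 := by
          rw [Finset.mul_sum, mul_one]
          refine le_trans ?_ a4
          refine le_trans (Finset.sum_le_sum fun j _ => e1 j) ?_
          refine Finset.sum_le_sum_of_subset_of_nonneg (Finset.erase_subset _ _) fun j _ _ => ?_
          have b1 := hd1 j
          have b2 : 0 ≤ 1 - ∑ l, ρ l ^ 2 + ρ j ^ 2 := by nlinarith [sq_nonneg (ρ j)]
          exact mul_nonneg (sq_nonneg _) (div_nonneg b2 (by linarith))
        exact le_of_mul_le_mul_left e2 hi0
    have e3 : ∑ j ∈ univ.erase i, w i j ≤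
        (∑ j ∈ univ.erase i, (if G.Adj i j then D i j * rest R i j else 0) +
        ∑ j, (if j = i then 0 else R i j ^ 2 / rest R j i)) / 2 := by
      have e4 : ∑ j, (if j = i then 0 else R i j ^ 2 / rest R j i) =
          ∑ j ∈ univ.erase i, R i j ^ 2 / rest R j i := by
        rw [← Finset.add_sum_erase _ _ (mem_univ i), if_pos rfl, zero_add]
        exact Finset.sum_congr rfl fun j hj => if_neg (Finset.ne_of_mem_erase hj)
      rw [e4, ← Finset.sum_add_distrib, Finset.sum_div]
      refine Finset.sum_le_sum fun j hj => ?_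
      rw [hw]; simp only
      have := hrest j i (Finset.ne_of_mem_erase hj)
      split_ifs with h
      · exact le_refl _
      · positivity
    linarith
  · intro i j hij
    have hwn : 0 ≤ w i j * w j i * ((1 - c i ^ 2) * (1 - c j ^ 2)) :=
      mul_nonneg (mul_nonneg (hw0 i j) (hw0 j i)) (mul_nonneg (hci i) (hci j))
    by_cases hRij : R i j = 0
    · rw [hRij]
      simpa using hwn
    have hadj : G.Adj i j := by
      by_contra h
      exact hRij (hz i j hij h)
    rcases (mul_nonneg (hci i) (hci j)).eq_or_lt with hd | hd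
    · have := hmin i j
      rw [← hd] at this ⊢
      have h2 : (R i j - c i * c j) ^ 2 = 0 := le_antisymm this (sq_nonneg _)
      rw [h2]; simp
    · have hpos : 0 < R i j ^ 2 := by positivity
      have r1 : 0 < rest R i j := lt_of_lt_of_le hpos
        (rest_ge hG hR' h1 hij.symm)
      have r2 : 0 < rest R j i := lt_of_lt_of_le (by rw [hPs.1 j i]; exact hpos)
        (rest_ge hG hR' h1 hij)
      have e1 : (R i j - c i * c j) ^ 2 = D i j * ((1 - c i ^ 2) * (1 - c j ^ 2)) := by
        rw [hD]; simp only; rw [div_mul_cancel₀ _ hd.ne']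
      rw [e1, ← mul_assoc]
      refine mul_le_mul_of_nonneg_right ?_ hd.le
      have e2 : w i j = (D i j * rest R i j + R i j ^ 2 / rest R j i) / 2 := by
        rw [hw]; simp only [if_pos hadj]
      have e3 : w j i = (D i j * rest R j i + R i j ^ 2 / rest R i j) / 2 := by
        rw [hw]; simp only [if_pos hadj.symm]; rw [hDs j i, hPs.1 j i]
      rw [e2, e3]
      generalize rest R i j = a at *
      generalize rest R j i = b at *
      generalize R i j ^ 2 = r at *
      have hδ := hD0 i j
      generalize D i j = δ at *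
      have e4 : (δ * a + r / b) / 2 * ((δ * b + r / a) / 2) =
          (δ ^ 2 * (a * b) + 2 * (δ * r) + r ^ 2 / (a * b)) / 4 := by
        field_simp
        ring
      rw [e4]
      have hab : 0 < a * b := mul_pos r1 r2
      have e5 : 2 * (δ * r) ≤ δ ^ 2 * (a * b) + r ^ 2 / (a * b) := by
        have e6 : 0 ≤ (δ * (a * b) - r) ^ 2 / (a * b) := by positivity
        have e7 : (δ * (a * b) - r) ^ 2 / (a * b) =
            δ ^ 2 * (a * b) + r ^ 2 / (a * b) - 2 * (δ * r) := by
          field_simp
          ring
        linarith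
      linarith

end Pool.Agent.Helper88.CE
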